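import Pool.Agent.TH49.Spl.AA

set_option autoImplicit false

/-! Requests spread according to a law: windows, weighted median trees and the two bounds. -/

namespace Pool.Agent.Q167.DO

open Pool.Agent.H581R2.Splay Pool.Agent.TH49.Spl Tr

/-! ### changes from left to right -/

theorem cnt_mono (l m r : ℕ) (Y : List ℕ) (b : Bool) : cnt l m r false Y ≤ cnt l m r b Y := by
  induction Y generalizing b with
  | nil => simp [cnt]
  | cons x Y ih =>
    by_cases h1 : l ≤ x ∧ x < m
    · simp only [cnt, if_pos h1]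
      exact le_refl _
    · by_cases h2 : m ≤ x ∧ x < r
      · simp only [cnt, if_neg h1, if_pos h2]
        simp
      · simp only [cnt, if_neg h1, if_neg h2]
        exact ih b

theorem cnt_append (l m r : ℕ) (X Y : List ℕ) (b : Bool) :
    cnt l m r b X + cnt l m r false Y ≤ cnt l m r b (X ++ Y) := by
  induction X generalizing b with
  | nil => simpa [cnt] using cnt_mono l m r Y b
  | cons x X ih =>
    by_cases h1 : l ≤ x ∧ x < m
    · simp only [List.cons_append, cnt, if_pos h1]
      exact ih true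
    · by_cases h2 : m ≤ x ∧ x < r
      · simp only [List.cons_append, cnt, if_neg h1, if_pos h2]
        have := ih false
        omega
      · simp only [List.cons_append, cnt, if_neg h1, if_neg h2]
        exact ih b

theorem cnt_true_pos (l m r : ℕ) (Y : List ℕ) (h : ∃ y ∈ Y, m ≤ y ∧ y < r) :
    1 ≤ cnt l m r true Y := by
  induction Y with
  | nil => simp at h
  | cons x Y ih =>
    by_cases h1 : l ≤ x ∧ x < m
    · have h3 : ∃ y ∈ Y, m ≤ y ∧ y < r := by
        obtain ⟨y, hy, hy2⟩ := h
        rcases List.mem_cons.1 hy with rfl | hy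
        · omega
        · exact ⟨y, hy, hy2⟩
      simp only [cnt, if_pos h1]
      exact ih h3
    · by_cases h2 : m ≤ x ∧ x < r
      · simp only [cnt, if_neg h1, if_pos h2]
        simp
      · have h3 : ∃ y ∈ Y, m ≤ y ∧ y < r := by
          obtain ⟨y, hy, hy2⟩ := h
          rcases List.mem_cons.1 hy with rfl | hy
          · exact absurd hy2 h2
          · exact ⟨y, hy, hy2⟩
        simp only [cnt, if_neg h1, if_neg h2]
        exact ih h3

theorem cnt_pos (l m r : ℕ) (X Y : List ℕ) (hX : ∃ x ∈ X, l ≤ x ∧ x < m)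
    (hY : ∃ y ∈ Y, m ≤ y ∧ y < r) : 1 ≤ cnt l m r false (X ++ Y) := by
  induction X with
  | nil => simp at hX
  | cons x X ih =>
    by_cases h1 : l ≤ x ∧ x < m
    · simp only [List.cons_append, cnt, if_pos h1]
      refine cnt_true_pos l m r (X ++ Y) ?_
      obtain ⟨y, hy, hy2⟩ := hY
      exact ⟨y, List.mem_append_right X hy, hy2⟩
    · have h3 : ∃ x ∈ X, l ≤ x ∧ x < m := by
        obtain ⟨y, hy, hy2⟩ := hX
        rcases List.mem_cons.1 hy with rfl | hy
        · exact absurd hy2 h1
        · exact ⟨y, hy, hy2⟩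
      have h4 := ih h3
      by_cases h2 : m ≤ x ∧ x < r
      · simp only [List.cons_append, cnt, if_neg h1, if_pos h2]
        omega
      · simp only [List.cons_append, cnt, if_neg h1, if_neg h2]
        exact h4

/-- the requests number `a, …, a + b - 1` -/
def seg (x : ℕ → ℕ) (a b : ℕ) : List ℕ := (List.range b).map fun i => x (a + i)

theorem seg_add (x : ℕ → ℕ) (a b c : ℕ) : seg x a (b + c) = seg x a b ++ seg x (a + b) c := by
  unfold seg
  rw [List.range_add, List.map_append, List.map_map]
  congr 1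
  refine List.map_congr_left fun i _ => ?_
  simp [add_assoc]

theorem mem_seg {x : ℕ → ℕ} {a b t : ℕ} (h1 : a ≤ t) (h2 : t < a + b) : x t ∈ seg x a b := by
  unfold seg
  rw [List.mem_map]
  exact ⟨t - a, List.mem_range.2 (by omega), by congr 1; omega⟩

/-- no request of `[l, r)` in the window of length `w` starting at `s` -/
def miss (x : ℕ → ℕ) (l r s w : ℕ) : Prop := ∀ t, s ≤ t → t < s + w → ¬ (l ≤ x t ∧ x t < r)

theorem cnt_windows (x : ℕ → ℕ) (l m r w : ℕ) (bad : ℕ → Prop) [DecidablePred bad]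
    (hbad : ∀ i, ¬ bad i → ¬ miss x l m (2 * w * i) w ∧ ¬ miss x m r (2 * w * i + w) w) (q : ℕ) :
    q ≤ cnt l m r false (seg x 0 (2 * w * q)) + ∑ i ∈ Finset.range q, (if bad i then 1 else 0) := by
  induction q with
  | zero => simp
  | succ q ih =>
    have e : 2 * w * (q + 1) = 2 * w * q + (w + w) := by ring
    rw [Finset.sum_range_succ, e, seg_add, seg_add, zero_add]
    have h1 := cnt_append l m r (seg x 0 (2 * w * q))
      (seg x (2 * w * q) w ++ seg x (2 * w * q + w) w) false
    by_cases hb : bad q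
    · rw [if_pos hb]
      omega
    · obtain ⟨h2, h3⟩ := hbad q hb
      unfold miss at h2 h3
      push Not at h2 h3
      obtain ⟨t, t1, t2, t3⟩ := h2
      obtain ⟨u, u1, u2, u3⟩ := h3
      have h4 := cnt_pos l m r (seg x (2 * w * q) w) (seg x (2 * w * q + w) w)
        ⟨x t, mem_seg t1 t2, t3⟩ ⟨x u, mem_seg u1 u2, u3⟩
      rw [if_neg hb]
      omega

theorem cnt_windows' (x : ℕ → ℕ) (l m r w N : ℕ) (bad : ℕ → Prop) [DecidablePred bad]
    (hbad : ∀ i, ¬ bad i → ¬ miss x l m (2 * w * i) w ∧ ¬ miss x m r (2 * w * i + w) w) :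
    N / (2 * w) ≤ cnt l m r false (seg x 0 N) +
      ∑ i ∈ Finset.range (N / (2 * w)), (if bad i then 1 else 0) := by
  have h := cnt_windows x l m r w bad hbad (N / (2 * w))
  obtain ⟨c, hc⟩ : ∃ c, N = 2 * w * (N / (2 * w)) + c :=
    ⟨N - 2 * w * (N / (2 * w)), by have := Nat.mul_div_le N (2 * w); omega⟩
  have h2 : cnt l m r false (seg x 0 (2 * w * (N / (2 * w)))) ≤ cnt l m r false (seg x 0 N) := by
    conv_rhs => rw [hc, seg_add]
    have := cnt_append l m r (seg x 0 (2 * w * (N / (2 * w))))
      (seg x (0 + 2 * w * (N / (2 * w))) c) false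
    omega
  omega

/-! ### masses -/

/-- the mass of `[l, r)` -/
noncomputable def ms (p : ℕ → ℝ) (l r : ℕ) : ℝ := ∑ x ∈ Finset.Ico l r, p x

theorem ms_nonneg {p : ℕ → ℝ} (hp : ∀ x, 0 ≤ p x) (l r : ℕ) : 0 ≤ ms p l r :=
  Finset.sum_nonneg fun x _ => hp x

theorem ms_split (p : ℕ → ℝ) {l m r : ℕ} (h1 : l ≤ m) (h2 : m ≤ r) :
    ms p l r = ms p l m + ms p m r := (Finset.sum_Ico_consecutive p h1 h2).symm

theorem ms_one (p : ℕ → ℝ) (z : ℕ) : ms p z (z + 1) = p z := by simp [ms]

/-- the sum over all splits of the smaller of the two masses -/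
noncomputable def vM (p : ℕ → ℝ) : AS → ℕ → ℕ → ℝ
  | AS.leaf, _, _ => 0
  | AS.node m _ _ A C, l, r => min (ms p l m) (ms p m r) + vM p A l m + vM p C m r

/-- the number of splits -/
def sz : AS → ℕ
  | AS.leaf => 0
  | AS.node _ _ _ A C => 1 + sz A + sz C

/-- the mean depth with respect to the masses -/
noncomputable def W (p : ℕ → ℝ) : Tr → ℕ → ℕ → ℝ
  | nil, _, _ => 0
  | node z A C, l, r => ms p l z + W p A l z + (ms p (z + 1) r + W p C (z + 1) r)

theorem pick {p : ℕ → ℝ} (hp : ∀ x, 0 ≤ p x) {S : Finset ℕ} (hS : ∀ x, x ∉ S → p x = 0)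
    {l r : ℕ} (hne : ∃ x ∈ S, l ≤ x ∧ x < r) :
    ∃ z ∈ S, l ≤ z ∧ z < r ∧ ms p (z + 1) r ≤ ms p l z + p z ∧
      ms p l z ≤ p z + ms p (z + 1) r := by
  obtain ⟨x0, hx0, hx1, hx2⟩ := hne
  have hsplit : ∀ z, l ≤ z → z < r → ms p l r = ms p l z + p z + ms p (z + 1) r := by
    intro z h1 h2
    rw [ms_split p (l := l) (m := z + 1) (r := r) (by omega) (by omega),
      ms_split p (l := l) (m := z) (r := z + 1) (by omega) (by omega), ms_one]
  rcases eq_or_lt_of_le (ms_nonneg hp l r) with h0 | h0
  · refine ⟨x0, hx0, hx1, hx2, ?_, ?_⟩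
    · have h1 := hsplit x0 hx1 hx2
      have := ms_nonneg hp l x0
      have := ms_nonneg hp (x0 + 1) r
      have := hp x0
      linarith
    · have h1 := hsplit x0 hx1 hx2
      have := ms_nonneg hp l x0
      have := ms_nonneg hp (x0 + 1) r
      have := hp x0
      linarith
  · have hex : ∃ t : ℕ, l + t < r ∧ ms p l r ≤ 2 * ms p l (l + t + 1) := by
      refine ⟨r - 1 - l, by omega, ?_⟩
      have : l + (r - 1 - l) + 1 = r := by omega
      rw [this]
      linarith
    classical
    obtain ⟨ht1, ht2⟩ := Nat.find_spec hex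
    have hmin := fun t' (h : t' < Nat.find hex) => Nat.find_min hex h
    generalize Nat.find hex = t at ht1 ht2 hmin
    obtain ⟨z, hz⟩ : ∃ z, z = l + t := ⟨_, rfl⟩
    rw [← hz] at ht1 ht2
    have hw1 : 2 * ms p l z < ms p l r := by
      rcases Nat.eq_zero_or_pos t with h1 | h1
      · have : z = l := by omega
        rw [this]
        have : ms p l l = 0 := by simp [ms]
        linarith
      · have h3 := hmin (t - 1) (by omega)
        have e : l + (t - 1) + 1 = z := by omega
        rw [e] at h3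
        by_contra hcon
        exact h3 ⟨by omega, not_lt.1 hcon⟩
    have h1 := hsplit z (by omega) ht1
    rw [ms_split p (l := l) (m := z) (r := z + 1) (by omega) (by omega), ms_one] at ht2
    refine ⟨z, ?_, by omega, ht1, by linarith, by linarith⟩
    by_contra hz0
    have := hS z hz0
    linarith

/-- The weighted median tree. -/
theorem wtree {p : ℕ → ℝ} (hp : ∀ x, 0 ≤ p x) {S : Finset ℕ} (hS : ∀ x, x ∉ S → p x = 0) :
    ∀ (d l r : ℕ), r - l = d → l ≤ r → ∃ (s : AS) (O : Tr), ok s l r ∧ clean s ∧ IsBST O ∧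
      (∀ k ∈ keys O, k ∈ S ∧ l ≤ k ∧ k < r) ∧ (∀ x ∈ S, l ≤ x → x < r → x ∈ keys O) ∧
      sz s = 2 * (keys O).length ∧ W p O l r ≤ 2 * vM p s l r := by
  intro d
  induction d using Nat.strong_induction_on with
  | _ d ih =>
    intro l r hd hlr
    by_cases hne : ∃ x ∈ S, l ≤ x ∧ x < r
    · obtain ⟨z, hzS, hz1, hz2, hz3, hz4⟩ := pick hp hS hne
      obtain ⟨s1, O1, a1, a2, a3, a4, a5, a6, a7⟩ := ih (z - l) (by omega) l z rfl (by omega)
      obtain ⟨s2, O2, b1, b2, b3, b4, b5, b6, b7⟩ :=
        ih (r - (z + 1)) (by omega) (z + 1) r rfl (by omega)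
      refine ⟨AS.node (z + 1) false false (AS.node z false false s1 AS.leaf) s2, node z O1 O2,
        ⟨by omega, by omega, ⟨by omega, by omega, a1, trivial⟩, b1⟩,
        ⟨rfl, rfl, ⟨rfl, rfl, a2, trivial⟩, b2⟩, ?_, ?_, ?_, ?_, ?_⟩
      · simp only [IsBST, keys]
        rw [List.pairwise_append, List.pairwise_cons]
        refine ⟨a3, ⟨fun k hk => by have := b4 k hk; omega, b3⟩, fun k hk k' hk' => ?_⟩
        have := a4 k hk
        rw [List.mem_cons] at hk'
        rcases hk' with rfl | hk'
        · omega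
        · have := b4 k' hk'; omega
      · intro k hk
        simp only [keys, List.mem_append, List.mem_cons] at hk
        rcases hk with hk | hk | hk
        · have := a4 k hk; exact ⟨this.1, this.2.1, by omega⟩
        · rw [hk]; exact ⟨hzS, hz1, hz2⟩
        · have := b4 k hk; exact ⟨this.1, by omega, this.2.2⟩
      · intro x hx h1 h2
        simp only [keys, List.mem_append, List.mem_cons]
        rcases lt_trichotomy x z with h | h | h
        · exact Or.inl (a5 x hx h1 h)
        · exact Or.inr (Or.inl h)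
        · exact Or.inr (Or.inr (b5 x hx (by omega) h2))
      · simp only [sz, keys, List.length_append, List.length_cons, a6, b6]
        ring
      · have e1 : ms p l (z + 1) = ms p l z + p z := by
          rw [ms_split p (l := l) (m := z) (r := z + 1) (by omega) (by omega), ms_one]
        simp only [W, vM, e1, ms_one]
        rw [min_eq_right hz3]
        have n1 := ms_nonneg hp l z
        have n3 := ms_nonneg hp (z + 1) r
        rcases le_total (ms p l z) (p z) with h | h
        · rw [min_eq_left h]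
          linarith
        · rw [min_eq_right h]
          linarith
    · refine ⟨AS.leaf, nil, trivial, trivial, by simp [IsBST, keys], by simp [keys], ?_, ?_, ?_⟩
      · intro x hx h1 h2
        exact absurd ⟨x, hx, h1, h2⟩ hne
      · simp [sz, keys]
      · simp [W, vM]

/-! ### depths -/

theorem dB_node (B : List ℕ) (O1 O2 : Tr) {l z r : ℕ} (h1 : l ≤ z) (h2 : z < r) :
    dB B (node z O1 O2) l r = dB B O1 l z + cB B l z + (dB B O2 (z + 1) r + cB B (z + 1) r) := by
  unfold dB cB
  rw [← List.sum_map_add, ← List.sum_map_add, ← List.sum_map_add]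
  congr 1
  refine List.map_congr_left fun x _ => ?_
  simp only [dep]
  split_ifs <;> omega

theorem dB_nil (B : List ℕ) (l r : ℕ) : dB B nil l r = 0 := by
  unfold dB
  simp [dep]

/-! ### the two bounds for a list of requests -/

theorem opt_len {T : Tr} {Y : List ℕ} : (Y.length : ℝ) ≤ (optAny (keys T) Y : ℝ) := by
  refine optAny_ge (T := T) rfl ?_
  intro T' c _ hE
  exact_mod_cast exec_length hE

theorem opt_val {T : Tr} (hT : IsBST T) {Y : List ℕ} (hY : ∀ x ∈ Y, x ∈ keys T) {s : AS} {R : ℕ}
    (hok : ok s 0 R) (hcl : clean s) : (val s 0 R Y : ℝ) ≤ 2 * (optAny (keys T) Y : ℝ) := by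
  have : (val s 0 R Y : ℝ) / 2 ≤ (optAny (keys T) Y : ℝ) := by
    refine optAny_ge (T := T) rfl ?_
    intro T' c hT' hE
    have hb' : IsBST T' := by unfold IsBST; rw [hT']; exact hT
    have g2 := exec_val hE hb' (fun x hx => by rw [hT']; exact hY x hx) s 0 R hok
      (clean_inv T' s 0 R hcl)
    rw [clean_cred s hcl] at g2
    have h' : (val s 0 R Y : ℝ) ≤ 2 * c := by
      have h'' : val s 0 R Y ≤ 2 * c := by omega
      exact_mod_cast h''
    linarith
  linarith

theorem splay_ub {T : Tr} (hT : IsBST T) (h1 : 1 ≤ (keys T).length) {Y : List ℕ}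
    (hY : ∀ x ∈ Y, x ∈ keys T) {O : Tr} (hO : IsBST O) (hTO : ∀ x ∈ keys T, x ∈ keys O) {R : ℕ}
    (hR : ∀ x ∈ keys T, x < R) :
    (costSplay T Y : ℝ) ≤ 8 * Y.length + 6 * (dB Y O 0 R : ℝ) +
      4 * ((keys T).length * Real.logb 2 (2 * (keys T).length)) := by
  have hlog : (0 : ℝ) ≤ Real.logb 2 (2 * (keys T).length) := by
    refine Real.logb_nonneg (by norm_num) ?_
    have : (1 : ℝ) ≤ (keys T).length := by exact_mod_cast h1
    linarith
  have e0 : (Y.map fun x => (8 + 6 * dep x O : ℝ)).sum = 8 * Y.length + 6 * (dB Y O 0 R : ℝ) := by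
    have e1 : (dB Y O 0 R : ℝ) = (Y.map fun x => (dep x O : ℝ)).sum := by
      unfold dB
      push_cast
      rw [List.map_map]
      congr 1
      refine List.map_congr_left fun x hx => ?_
      simp only [Function.comp]
      rw [if_pos ⟨by omega, hR x (hY x hx)⟩]
    rw [e1, List.sum_map_add, List.sum_map_mul_left, List.map_const', List.sum_replicate,
      nsmul_eq_mul]
    ring
  have hcard : (Y.toFinset.card : ℝ) ≤ (keys T).length := by
    have h2 : Y.toFinset.card ≤ (keys T).toFinset.card := by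
      refine Finset.card_le_card ?_
      intro x hx
      exact List.mem_toFinset.2 (hY x (List.mem_toFinset.1 hx))
    exact_mod_cast le_trans h2 (List.toFinset_card_le _)
  have up := splay_windowsF h1 (J := 1) (fun _ => Y)
    (fun _ => 8 * Y.length + 6 * (dB Y O 0 R : ℝ) +
      3 * Y.toFinset.card * Real.logb 2 (2 * (keys T).length)) T hT rfl
    (fun _ x hx => hY x hx) (fun _ => ⟨O, hO, fun x hx => hTO x (hY x hx), by rw [e0]⟩)
  have e2 : cat (fun _ : Fin 1 => Y) = Y := by simp [cat]
  rw [e2] at up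
  simp only [Fin.sum_univ_one] at up
  have := mul_le_mul_of_nonneg_right hcard hlog
  linarith

end Pool.Agent.Q167.DO
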