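import Pool.Agent.Q167.DO.A

set_option autoImplicit false

/-! Requests spread according to a law: the comparison of splaying with the optimum. -/

namespace Pool.Agent.Q167.DO

open Pool.Agent.H581R2.Splay Pool.Agent.TH49.Spl Tr MeasureTheory

variable {Ω : Type*}

/-- The list of the first `m` requests. -/
def reqs (X : ℕ → Ω → ℕ) (m : ℕ) (ω : Ω) : List ℕ := (List.range m).map fun t => X t ω

theorem reqs_seg (X : ℕ → Ω → ℕ) (m : ℕ) (ω : Ω) : seg (fun t => X t ω) 0 m = reqs X m ω := by
  simp [seg, reqs]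

theorem reqs_ofFn (X : ℕ → Ω → ℕ) (m : ℕ) (ω : Ω) :
    reqs X m ω = List.ofFn (fun i : Fin m => X i ω) := by
  unfold reqs
  exact List.ext_getElem (by simp) (by simp)

theorem reqs_length (X : ℕ → Ω → ℕ) (m : ℕ) (ω : Ω) : (reqs X m ω).length = m := by
  simp [reqs]

theorem reqs_mem {X : ℕ → Ω → ℕ} {Ks : List ℕ} (hK : ∀ t ω, X t ω ∈ Ks) (m : ℕ) (ω : Ω) :
    ∀ x ∈ reqs X m ω, x ∈ Ks := by
  intro x hx
  unfold reqs at hx
  rw [List.mem_map] at hx
  obtain ⟨t, -, rfl⟩ := hx
  exact hK t ω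

variable [MeasurableSpace Ω]

theorem reqs_meas {X : ℕ → Ω → ℕ} (hX : ∀ t, Measurable (X t)) (m : ℕ) (f : List ℕ → ℝ) :
    Measurable fun ω => f (reqs X m ω) := by
  have e : (fun ω => f (reqs X m ω)) =
      (fun v : Fin m → ℕ => f (List.ofFn v)) ∘ fun ω i => X i ω := by
    funext ω
    simp only [Function.comp, reqs_ofFn]
  rw [e]
  exact (measurable_of_countable _).comp (measurable_pi_lambda _ fun i => hX i)

theorem reqs_int (P : Measure Ω) [IsProbabilityMeasure P] {X : ℕ → Ω → ℕ}
    (hX : ∀ t, Measurable (X t)) {Ks : List ℕ} (hK : ∀ t ω, X t ω ∈ Ks) (m : ℕ)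
    (f : List ℕ → ℝ) : Integrable (fun ω => f (reqs X m ω)) P := by
  classical
  refine Integrable.of_bound (reqs_meas hX m f).aestronglyMeasurable
    (∑ v ∈ Fintype.piFinset (fun _ : Fin m => Ks.toFinset), |f (List.ofFn v)|) ?_
  refine Filter.Eventually.of_forall fun ω => ?_
  rw [Real.norm_eq_abs, reqs_ofFn]
  exact Finset.single_le_sum (f := fun v : Fin m → ℕ => |f (List.ofFn v)|)
    (fun v _ => abs_nonneg _) (Fintype.mem_piFinset.2 fun i => List.mem_toFinset.2 (hK i ω))

/-- The weight of the keys in `[l, r)`. -/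
noncomputable def mass (Ks : List ℕ) (π : ℕ → ℝ) (l r : ℕ) : ℝ :=
  ∑ x ∈ Ks.toFinset.filter (fun x => l ≤ x ∧ x < r), π x

/-- The first `m` requests hit the intervals according to the weights `π`: for every interval
`[l, r)` of weight `a` and every window of `w` successive requests the probability that none of these
requests lies in the interval is at most `K / (w a)`. -/
def Hits (P : Measure Ω) (X : ℕ → Ω → ℕ) (m : ℕ) (Ks : List ℕ) (π : ℕ → ℝ) (K : ℝ) : Prop :=
  ∀ l r s w : ℕ, s + w ≤ m →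
    P.real {ω | ∀ t, s ≤ t → t < s + w → ¬ (l ≤ X t ω ∧ X t ω < r)} * (w * mass Ks π l r) ≤ K

/-- The first `m` requests are spread according to the weights `π`: they hit the intervals, and every
interval `[l, r)` of weight `a` contains on average at most `A (m a + 1)` of them. -/
def Spread (P : Measure Ω) (X : ℕ → Ω → ℕ) (m : ℕ) (Ks : List ℕ) (π : ℕ → ℝ) (A K : ℝ) : Prop :=
  (∀ l r : ℕ, ∑ t ∈ Finset.range m, P.real {ω | l ≤ X t ω ∧ X t ω < r} ≤
      A * (m * mass Ks π l r + 1)) ∧ Hits P X m Ks π K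

theorem mass_eq (Ks : List ℕ) (π : ℕ → ℝ) (l r : ℕ) :
    mass Ks π l r = ms (fun x => if x ∈ Ks then π x else 0) l r := by
  unfold mass ms
  rw [← Finset.sum_filter]
  refine Finset.sum_congr ?_ fun _ _ => rfl
  ext x
  simp only [Finset.mem_filter, List.mem_toFinset, Finset.mem_Ico]
  tauto

theorem meas_in {X : ℕ → Ω → ℕ} (hX : ∀ t, Measurable (X t)) (t l r : ℕ) :
    MeasurableSet {ω | l ≤ X t ω ∧ X t ω < r} :=
  (hX t) (show MeasurableSet {x : ℕ | l ≤ x ∧ x < r} from MeasurableSet.of_discrete)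

theorem meas_miss {X : ℕ → Ω → ℕ} (hX : ∀ t, Measurable (X t)) (l r s w : ℕ) :
    MeasurableSet {ω | miss (fun t => X t ω) l r s w} := by
  have : {ω | miss (fun t => X t ω) l r s w} =
      ⋂ t, ⋂ (_ : s ≤ t), ⋂ (_ : t < s + w), {ω | l ≤ X t ω ∧ X t ω < r}ᶜ := by
    ext ω
    simp [miss]
  rw [this]
  exact MeasurableSet.iInter fun t => MeasurableSet.iInter fun _ => MeasurableSet.iInter fun _ =>
    (meas_in hX t l r).compl

theorem cB_append (A B : List ℕ) (l r : ℕ) : cB (A ++ B) l r = cB A l r + cB B l r := by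
  simp [cB]

theorem cB_reqs (X : ℕ → Ω → ℕ) (m l r : ℕ) (ω : Ω) : (cB (reqs X m ω) l r : ℝ) =
    ∑ t ∈ Finset.range m,
      ({ω | l ≤ X t ω ∧ X t ω < r} : Set Ω).indicator (fun _ => (1 : ℝ)) ω := by
  classical
  induction m with
  | zero => simp [cB, reqs]
  | succ m ih =>
    have e : reqs X (m + 1) ω = reqs X m ω ++ [X m ω] := by simp [reqs, List.range_succ]
    rw [Finset.sum_range_succ, ← ih, e, cB_append, Nat.cast_add, Set.indicator_apply]
    congr 1
    simp only [cB, List.map_cons, List.map_nil, List.sum_cons, List.sum_nil, add_zero,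
      Set.mem_ofPred_eq]
    split_ifs <;> simp

theorem E_cB (P : Measure Ω) [IsProbabilityMeasure P] {X : ℕ → Ω → ℕ}
    (hX : ∀ t, Measurable (X t)) (m l r : ℕ) : ∫ ω, (cB (reqs X m ω) l r : ℝ) ∂P =
      ∑ t ∈ Finset.range m, P.real {ω | l ≤ X t ω ∧ X t ω < r} := by
  simp_rw [cB_reqs]
  rw [integral_finsetSum _ fun t _ => (integrable_const (1 : ℝ)).indicator (meas_in hX t l r)]
  refine Finset.sum_congr rfl fun t _ => ?_
  rw [integral_indicator_const _ (meas_in hX t l r)]
  simp

theorem E_dB (P : Measure Ω) [IsProbabilityMeasure P] {X : ℕ → Ω → ℕ}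
    (hX : ∀ t, Measurable (X t)) {Ks : List ℕ} (hK : ∀ t ω, X t ω ∈ Ks) {m : ℕ} {p : ℕ → ℝ}
    {A : ℝ} (h : ∀ l r : ℕ, ∫ ω, (cB (reqs X m ω) l r : ℝ) ∂P ≤ A * (m * ms p l r + 1)) :
    ∀ (O : Tr) (l r : ℕ), IsBST O → (∀ k ∈ keys O, l ≤ k ∧ k < r) →
      ∫ ω, (dB (reqs X m ω) O l r : ℝ) ∂P ≤ A * (m * W p O l r + 2 * (keys O).length) := by
  intro O
  induction O with
  | nil =>
    intro l r _ _
    simp [dB_nil, W, keys]
  | node z O1 O2 ih1 ih2 =>
    intro l r hb hk
    obtain ⟨b1, b2, b3, b4⟩ := bstn hb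
    have hz := hk z (by simp [keys])
    have i1 := ih1 l z b1 fun k hk' => ⟨(hk k (by simp [keys, hk'])).1, b3 k hk'⟩
    have i2 := ih2 (z + 1) r b2 fun k hk' => ⟨b4 k hk', (hk k (by simp [keys, hk'])).2⟩
    have e : ∀ ω, (dB (reqs X m ω) (node z O1 O2) l r : ℝ) =
        ((dB (reqs X m ω) O1 l z : ℝ) + (cB (reqs X m ω) l z : ℝ)) +
          ((dB (reqs X m ω) O2 (z + 1) r : ℝ) + (cB (reqs X m ω) (z + 1) r : ℝ)) := by
      intro ω
      rw [dB_node _ _ _ hz.1 hz.2]
      push_cast
      ring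
    simp_rw [e]
    have j1 := reqs_int P hX hK m (fun B => (dB B O1 l z : ℝ))
    have j2 := reqs_int P hX hK m (fun B => (cB B l z : ℝ))
    have j3 := reqs_int P hX hK m (fun B => (dB B O2 (z + 1) r : ℝ))
    have j4 := reqs_int P hX hK m (fun B => (cB B (z + 1) r : ℝ))
    have e2 := integral_add (j1.add j2) (j3.add j4)
    have e3 := integral_add j1 j2
    have e4 := integral_add j3 j4
    simp only [Pi.add_apply] at e2 e3 e4
    rw [e2, e3, e4]
    have k1 := h l z
    have k2 := h (z + 1) r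
    simp only [W, keys, List.length_append, List.length_cons]
    push_cast
    linarith

/-! ### windows -/

/-- the length of the windows of a split -/
noncomputable def ww (p : ℕ → ℝ) (B : ℝ) (l m r : ℕ) : ℕ := ⌈B / min (ms p l m) (ms p m r)⌉₊

/-- the number of windows -/
noncomputable def QQ (p : ℕ → ℝ) (B : ℝ) (N : ℕ) : AS → ℕ → ℕ → ℕ
  | AS.leaf, _, _ => 0
  | AS.node m _ _ A C, l, r => N / (2 * ww p B l m r) + QQ p B N A l m + QQ p B N C m r

/-- a window of a split fails -/
def badW (X : ℕ → Ω → ℕ) (l m r w i : ℕ) : Set Ω :=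
  {ω | miss (fun t => X t ω) l m (2 * w * i) w} ∪ {ω | miss (fun t => X t ω) m r (2 * w * i + w) w}

/-- the number of windows that fail -/
noncomputable def FF (X : ℕ → Ω → ℕ) (p : ℕ → ℝ) (B : ℝ) (N : ℕ) : AS → ℕ → ℕ → Ω → ℝ
  | AS.leaf, _, _, _ => 0
  | AS.node m _ _ A C, l, r, ω =>
      ∑ i ∈ Finset.range (N / (2 * ww p B l m r)),
        (badW X l m r (ww p B l m r) i).indicator (fun _ => (1 : ℝ)) ω +
      FF X p B N A l m ω + FF X p B N C m r ω

theorem val_lb (X : ℕ → Ω → ℕ) (p : ℕ → ℝ) (B : ℝ) (N : ℕ) : ∀ (s : AS) (l r : ℕ) (ω : Ω),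
    clean s → (QQ p B N s l r : ℝ) ≤ (val s l r (reqs X N ω) : ℝ) + FF X p B N s l r ω := by
  classical
  intro s
  induction s with
  | leaf => intro l r ω _; simp [QQ, val, FF]
  | node m b q A C ihA ihC =>
    intro l r ω hcl
    obtain ⟨k1, k2, k3, k4⟩ := hcl
    subst k1
    have h := cnt_windows' (fun t => X t ω) l m r (ww p B l m r) N
      (fun i => ω ∈ badW X l m r (ww p B l m r) i)
      (fun i hi => ⟨fun h => hi (Or.inl h), fun h => hi (Or.inr h)⟩)
    rw [reqs_seg] at h
    have h' : ((N / (2 * ww p B l m r) : ℕ) : ℝ) ≤ (cnt l m r false (reqs X N ω) : ℝ) +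
        ∑ i ∈ Finset.range (N / (2 * ww p B l m r)),
          (badW X l m r (ww p B l m r) i).indicator (fun _ => (1 : ℝ)) ω := by
      have h2 : ((N / (2 * ww p B l m r) : ℕ) : ℝ) ≤ ((cnt l m r false (reqs X N ω) +
        ∑ i ∈ Finset.range (N / (2 * ww p B l m r)),
          (if ω ∈ badW X l m r (ww p B l m r) i then 1 else 0) : ℕ) : ℝ) := by exact_mod_cast h
      refine le_trans h2 (le_of_eq ?_)
      push_cast
      simp only [Set.indicator_apply]
    have h1 := ihA l m ω k3
    have h2 := ihC m r ω k4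
    simp only [QQ, val, FF, Nat.cast_add]
    linarith

theorem FF_nonneg (X : ℕ → Ω → ℕ) (p : ℕ → ℝ) (B : ℝ) (N : ℕ) : ∀ (s : AS) (l r : ℕ) (ω : Ω),
    0 ≤ FF X p B N s l r ω := by
  intro s
  induction s with
  | leaf => intro l r ω; simp [FF]
  | node m b q A C ihA ihC =>
    intro l r ω
    have h1 := ihA l m ω
    have h2 := ihC m r ω
    have h3 : 0 ≤ ∑ i ∈ Finset.range (N / (2 * ww p B l m r)),
        (badW X l m r (ww p B l m r) i).indicator (fun _ => (1 : ℝ)) ω :=
      Finset.sum_nonneg fun i _ => Set.indicator_nonneg (fun _ _ => zero_le_one) _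
    simp only [FF]
    linarith

theorem FF_le (X : ℕ → Ω → ℕ) (p : ℕ → ℝ) (B : ℝ) (N : ℕ) : ∀ (s : AS) (l r : ℕ) (ω : Ω),
    FF X p B N s l r ω ≤ QQ p B N s l r := by
  intro s
  induction s with
  | leaf => intro l r ω; simp [FF, QQ]
  | node m b q A C ihA ihC =>
    intro l r ω
    have h1 := ihA l m ω
    have h2 := ihC m r ω
    have h3 : ∑ i ∈ Finset.range (N / (2 * ww p B l m r)),
        (badW X l m r (ww p B l m r) i).indicator (fun _ => (1 : ℝ)) ω ≤
          ∑ i ∈ Finset.range (N / (2 * ww p B l m r)), (1 : ℝ) :=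
      Finset.sum_le_sum fun i _ => Set.indicator_apply_le' (fun _ => le_refl _)
        (fun _ => zero_le_one)
    rw [Finset.sum_const, Finset.card_range, nsmul_eq_mul, mul_one] at h3
    simp only [FF, QQ, Nat.cast_add]
    linarith

theorem meas_bad {X : ℕ → Ω → ℕ} (hX : ∀ t, Measurable (X t)) (l m r w i : ℕ) :
    MeasurableSet (badW X l m r w i) := (meas_miss hX _ _ _ _).union (meas_miss hX _ _ _ _)

theorem FF_int (P : Measure Ω) [IsProbabilityMeasure P] {X : ℕ → Ω → ℕ}
    (hX : ∀ t, Measurable (X t)) (p : ℕ → ℝ) (B : ℝ) (N : ℕ) : ∀ (s : AS) (l r : ℕ),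
    Integrable (fun ω => FF X p B N s l r ω) P := by
  intro s
  induction s with
  | leaf => intro l r; simp [FF]
  | node m b q A C ihA ihC =>
    intro l r
    simp only [FF]
    refine ((integrable_finsetSum _ fun i _ => ?_).add (ihA l m)).add (ihC m r)
    exact (integrable_const (1 : ℝ)).indicator (meas_bad hX _ _ _ _ _)

theorem FF_E (P : Measure Ω) [IsProbabilityMeasure P] {X : ℕ → Ω → ℕ}
    (hX : ∀ t, Measurable (X t)) {p : ℕ → ℝ} (hp : ∀ x, 0 ≤ p x) {B K : ℝ} (hB : 0 < B)
    (N : ℕ) (h : ∀ l r s w : ℕ, s + w ≤ N →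
      P.real {ω | miss (fun t => X t ω) l r s w} * (w * ms p l r) ≤ K) : ∀ (s : AS) (l r : ℕ),
    ∫ ω, FF X p B N s l r ω ∂P ≤ 2 * K / B * QQ p B N s l r := by
  intro s
  induction s with
  | leaf => intro l r; simp [FF, QQ]
  | node m b q A C ihA ihC =>
    intro l r
    have hint : ∀ i ∈ Finset.range (N / (2 * ww p B l m r)), Integrable
        (fun ω => (badW X l m r (ww p B l m r) i).indicator (fun _ => (1 : ℝ)) ω) P :=
      fun i _ => (integrable_const (1 : ℝ)).indicator (meas_bad hX _ _ _ _ _)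
    have e1 := integral_add ((integrable_finsetSum _ hint).add (FF_int P hX p B N A l m))
      (FF_int P hX p B N C m r)
    have e2 := integral_add (integrable_finsetSum _ hint) (FF_int P hX p B N A l m)
    simp only [Pi.add_apply] at e1 e2
    simp only [FF, QQ]
    rw [e1, e2, integral_finsetSum _ hint]
    have h3 : ∑ i ∈ Finset.range (N / (2 * ww p B l m r)),
        ∫ ω, (badW X l m r (ww p B l m r) i).indicator (fun _ => (1 : ℝ)) ω ∂P ≤
          ∑ i ∈ Finset.range (N / (2 * ww p B l m r)), (2 * K / B) := by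
      refine Finset.sum_le_sum fun i hi => ?_
      rw [integral_indicator_const _ (meas_bad hX _ _ _ _ _), smul_eq_mul, mul_one]
      have hi' := Finset.mem_range.1 hi
      set a := ms p l m with ha
      set c := ms p m r with hc
      have ha0 : 0 ≤ a := ms_nonneg hp l m
      have hc0 : 0 ≤ c := ms_nonneg hp m r
      have hδ : 0 < min a c := by
        rcases eq_or_lt_of_le (le_min ha0 hc0) with h0 | h0
        · exfalso
          have : ww p B l m r = 0 := by
            unfold ww
            rw [← ha, ← hc, ← h0]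
            simp
          rw [this] at hi'
          simp at hi'
        · exact h0
      set w := ww p B l m r with hw
      have hwB : B ≤ w * min a c := by
        have : B / min a c ≤ w := by
          rw [hw]; unfold ww; exact Nat.le_ceil _
        rwa [div_le_iff₀ hδ] at this
      have hwn : 2 * w * (i + 1) ≤ N :=
        le_trans (Nat.mul_le_mul_left _ (by omega : i + 1 ≤ N / (2 * w))) (Nat.mul_div_le _ _)
      have e3 : 2 * w * (i + 1) = 2 * w * i + w + w := by ring
      have g1 := h l m (2 * w * i) w (by omega)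
      have g2 := h m r (2 * w * i + w) w (by omega)
      have p1 : 0 ≤ P.real {ω | miss (fun t => X t ω) l m (2 * w * i) w} := measureReal_nonneg
      have p2 : 0 ≤ P.real {ω | miss (fun t => X t ω) m r (2 * w * i + w) w} := measureReal_nonneg
      have w0 : (0 : ℝ) ≤ w := Nat.cast_nonneg _
      have q1 : B ≤ w * a := le_trans hwB (mul_le_mul_of_nonneg_left (min_le_left _ _) w0)
      have q2 : B ≤ w * c := le_trans hwB (mul_le_mul_of_nonneg_left (min_le_right _ _) w0)
      have r1 : P.real {ω | miss (fun t => X t ω) l m (2 * w * i) w} ≤ K / B := by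
        rw [le_div_iff₀ hB]
        exact le_trans (mul_le_mul_of_nonneg_left q1 p1) g1
      have r2 : P.real {ω | miss (fun t => X t ω) m r (2 * w * i + w) w} ≤ K / B := by
        rw [le_div_iff₀ hB]
        exact le_trans (mul_le_mul_of_nonneg_left q2 p2) g2
      have r3 : P.real (badW X l m r w i) ≤ _ := measureReal_union_le _ _
      have e4 : 2 * K / B = K / B + K / B := by ring
      rw [e4]
      exact le_trans r3 (add_le_add r1 r2)
    rw [Finset.sum_const, Finset.card_range, nsmul_eq_mul] at h3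
    have h1 := ihA l m
    have h2 := ihC m r
    push_cast
    linarith

theorem QQ_lb {p : ℕ → ℝ} (hp : ∀ x, 0 ≤ p x) (hp1 : ∀ l r, ms p l r ≤ 1) {B : ℝ} (hB : 1 ≤ B)
    (N : ℕ) : ∀ (s : AS) (l r : ℕ), (N : ℝ) * vM p s l r ≤ 4 * B * (QQ p B N s l r + sz s) := by
  intro s
  induction s with
  | leaf => intro l r; simp [vM, QQ, sz]
  | node m b q A C ihA ihC =>
    intro l r
    have h1 := ihA l m
    have h2 := ihC m r
    have h3 : (N : ℝ) * min (ms p l m) (ms p m r) ≤
        4 * B * ((N / (2 * ww p B l m r) : ℕ) + 1) := by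
      set a := ms p l m with ha
      set c := ms p m r with hc
      have ha0 : 0 ≤ a := ms_nonneg hp l m
      have hc0 : 0 ≤ c := ms_nonneg hp m r
      rcases eq_or_lt_of_le (le_min ha0 hc0) with h0 | h0
      · rw [← h0, mul_zero]
        positivity
      · set w := ww p B l m r with hw
        set δ := min a c with hδ
        have hδ1 : δ ≤ 1 := le_trans (min_le_left _ _) (hp1 l m)
        have hBδ : 1 ≤ B / δ := by
          rw [le_div_iff₀ h0]; linarith
        have hw1 : B / δ ≤ w := by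
          rw [hw]; unfold ww; exact Nat.le_ceil _
        have hw2 : (w : ℝ) < B / δ + 1 := by
          rw [hw]; unfold ww; exact Nat.ceil_lt_add_one (by linarith)
        have hw3 : (w : ℝ) * δ ≤ 2 * B := by
          have h4 : (w : ℝ) ≤ 2 * (B / δ) := by linarith
          have h5 : 2 * (B / δ) * δ = 2 * B := by field_simp
          calc (w : ℝ) * δ ≤ 2 * (B / δ) * δ := mul_le_mul_of_nonneg_right h4 h0.le
            _ = 2 * B := h5
        have hwpos : 0 < w := by
          have : (0 : ℝ) < w := by linarith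
          exact_mod_cast this
        have hN : N < 2 * w * (N / (2 * w) + 1) := Nat.lt_mul_div_succ N (by omega)
        have hN' : (N : ℝ) ≤ 2 * w * ((N / (2 * w) : ℕ) + 1) := by exact_mod_cast hN.le
        have hq : (0 : ℝ) ≤ ((N / (2 * w) : ℕ) : ℝ) + 1 := by positivity
        calc (N : ℝ) * δ ≤ 2 * w * ((N / (2 * w) : ℕ) + 1) * δ :=
              mul_le_mul_of_nonneg_right hN' h0.le
          _ = 2 * (w * δ) * ((N / (2 * w) : ℕ) + 1) := by ring
          _ ≤ 2 * (2 * B) * ((N / (2 * w) : ℕ) + 1) := by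
              refine mul_le_mul_of_nonneg_right ?_ hq
              linarith
          _ = 4 * B * ((N / (2 * w) : ℕ) + 1) := by ring
    simp only [vM, QQ, sz]
    push_cast at h3 ⊢
    linarith

end Pool.Agent.Q167.DO
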