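import Pool.Agent.Q167.DO.B

set_option autoImplicit false

/-! Requests spread according to a law: the main theorem, for requests in several phases. -/

namespace Pool.Agent.Q167.DO

open Pool.Agent.H581R2.Splay Pool.Agent.TH49.Spl Tr MeasureTheory

variable {Ω : Type*} [MeasurableSpace Ω]

/-- `n log₂ (2 n)`, `n` the number of keys. -/
noncomputable def nlog (T : Tr) : ℝ := (keys T).length * Real.logb 2 (2 * (keys T).length)

theorem nlog_ge {T : Tr} (h1 : 1 ≤ (keys T).length) : ((keys T).length : ℝ) ≤ nlog T := by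
  have h : (1 : ℝ) ≤ (keys T).length := by exact_mod_cast h1
  have h2 : (1 : ℝ) ≤ Real.logb 2 (2 * (keys T).length) := by
    rw [Real.le_logb_iff_rpow_le (by norm_num) (by linarith)]
    rw [Real.rpow_one]
    linarith
  unfold nlog
  nlinarith

/-- The data attached to the weights, for one phase. -/
theorem setup {T : Tr} (h1 : 1 ≤ (keys T).length)
    {P : Measure Ω} [IsProbabilityMeasure P] {X : ℕ → Ω → ℕ} (hX : ∀ t, Measurable (X t))
    (hK : ∀ t ω, X t ω ∈ keys T) {m : ℕ} {π : ℕ → ℝ} (hπ0 : ∀ x, 0 ≤ π x)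
    (hπ1 : ∑ x ∈ (keys T).toFinset, π x ≤ 1) {A K : ℝ} (hA : 1 ≤ A)
    (hS : Spread P X m (keys T) π A K) {B : ℝ} (hB : 1 ≤ B) :
    ∃ (D V F : Ω → ℝ) (M Q : ℝ), (∀ ω, 0 ≤ D ω) ∧ Integrable D P ∧ 0 ≤ M ∧
      ∫ ω, D ω ∂P ≤ A * (2 * M + 2 * (keys T).length) ∧
      (∀ ω, ∀ S : Tr, IsBST S → keys S = keys T → (costSplay S (reqs X m ω) : ℝ) ≤
        8 * m + 6 * D ω + 4 * nlog T) ∧
      (∀ ω, ∀ (S : Tr) (c : ℕ), IsBST S → keys S = keys T → Exec S (reqs X m ω) c →
        V ω ≤ 2 * c) ∧ Integrable V P ∧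
      (∀ ω, 0 ≤ F ω) ∧ (∀ ω, F ω ≤ Q) ∧ 0 ≤ Q ∧ Integrable F P ∧
      (∀ ω, Q ≤ V ω + F ω) ∧ ∫ ω, F ω ∂P ≤ 2 * K / B * Q ∧
      M ≤ 4 * B * (Q + 2 * (keys T).length) := by
  classical
  obtain ⟨R, hR⟩ : ∃ R, ∀ x ∈ keys T, x < R := ⟨(keys T).toFinset.sup id + 1, fun x hx =>
    Nat.lt_succ_of_le (Finset.le_sup (f := id) (List.mem_toFinset.2 hx))⟩
  set p : ℕ → ℝ := fun x => if x ∈ keys T then π x else 0 with hp
  have hp0 : ∀ x, 0 ≤ p x := by
    intro x
    simp only [hp]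
    split_ifs
    · exact hπ0 x
    · exact le_refl _
  have hpS : ∀ x, x ∉ (keys T).toFinset → p x = 0 := by
    intro x hx
    simp only [hp]
    rw [if_neg (fun h => hx (List.mem_toFinset.2 h))]
  have hp1 : ∀ l r, ms p l r ≤ 1 := by
    intro l r
    rw [hp, ← mass_eq]
    refine le_trans ?_ hπ1
    unfold mass
    exact Finset.sum_le_sum_of_subset_of_nonneg (Finset.filter_subset _ _) fun x _ _ => hπ0 x
  obtain ⟨s, O, a1, a2, a3, a4, a5, a6, a7⟩ := wtree hp0 hpS R 0 R (by omega) (by omega)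
  obtain ⟨S1, S2⟩ := hS
  have hlen : (keys O).length ≤ (keys T).length := by
    have nod : (keys O).Nodup := List.Pairwise.imp (fun {a b} h => by omega) a3
    rw [← List.toFinset_card_of_nodup nod]
    refine le_trans (Finset.card_le_card ?_) (List.toFinset_card_le (keys T))
    intro k hk
    exact (a4 k (List.mem_toFinset.1 hk)).1
  have hlen' : ((keys O).length : ℝ) ≤ (keys T).length := by exact_mod_cast hlen
  have hvM : 0 ≤ vM p s 0 R := by
    have : ∀ (s : AS) (l r : ℕ), 0 ≤ vM p s l r := by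
      intro s
      induction s with
      | leaf => intro l r; simp [vM]
      | node m b q A C ihA ihC =>
        intro l r
        have := ihA l m
        have := ihC m r
        have := le_min (ms_nonneg hp0 l m) (ms_nonneg hp0 m r)
        simp only [vM]
        linarith
    exact this s 0 R
  have hcB : ∀ l r : ℕ, ∫ ω, (cB (reqs X m ω) l r : ℝ) ∂P ≤ A * (m * ms p l r + 1) := by
    intro l r
    rw [E_cB P hX, hp, ← mass_eq]
    exact S1 l r
  refine ⟨fun ω => (dB (reqs X m ω) O 0 R : ℝ), fun ω => (val s 0 R (reqs X m ω) : ℝ),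
    fun ω => FF X p B m s 0 R ω, m * vM p s 0 R, QQ p B m s 0 R, fun ω => Nat.cast_nonneg _,
    reqs_int P hX hK m (fun Y => (dB Y O 0 R : ℝ)), by positivity, ?_, ?_, ?_,
    reqs_int P hX hK m (fun Y => (val s 0 R Y : ℝ)), fun ω => FF_nonneg X p B m s 0 R ω,
    fun ω => FF_le X p B m s 0 R ω, Nat.cast_nonneg _, FF_int P hX p B m s 0 R,
    fun ω => val_lb X p B m s 0 R ω a2, ?_, ?_⟩
  · refine le_trans (E_dB P hX hK hcB O 0 R a3 fun k hk => (a4 k hk).2) ?_
    refine mul_le_mul_of_nonneg_left ?_ (by linarith)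
    have hm : (0 : ℝ) ≤ m := Nat.cast_nonneg _
    have := mul_le_mul_of_nonneg_left a7 hm
    linarith
  · intro ω S hS hSk
    have h := splay_ub hS (by rw [hSk]; exact h1) (Y := reqs X m ω)
      (by rw [hSk]; exact reqs_mem hK m ω) a3
      (fun x hx => a5 x (List.mem_toFinset.2 (by rw [hSk] at hx; exact hx)) (by omega)
        (hR x (by rw [hSk] at hx; exact hx))) (by rw [hSk]; exact hR)
    rw [reqs_length, hSk] at h
    unfold nlog
    exact h
  · intro ω S c hS hSk hE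
    have g2 := exec_val hE hS (by rw [hSk]; exact reqs_mem hK m ω) s 0 R a1
      (clean_inv S s 0 R a2)
    rw [clean_cred s a2] at g2
    have h'' : val s 0 R (reqs X m ω) ≤ 2 * c := by omega
    show (val s 0 R (reqs X m ω) : ℝ) ≤ 2 * c
    exact_mod_cast h''
  · refine FF_E P hX hp0 (by linarith) m ?_ s 0 R
    intro l r s' w hw
    have := S2 l r s' w hw
    rw [mass_eq] at this
    exact this
  · have h := QQ_lb hp0 hp1 hB m s 0 R
    refine le_trans h (mul_le_mul_of_nonneg_left ?_ (by linarith))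
    rw [a6]
    push_cast
    linarith

/-- The comparison in expectation, abstract form. -/
theorem coreE {P : Measure Ω} [IsProbabilityMeasure P] {c o D V F : Ω → ℝ} {M Q A K N L : ℝ}
    (hc : Integrable c P) (ho : Integrable o P) (ho0 : ∀ ω, 0 ≤ o ω) (hA : 1 ≤ A) (hK1 : 1 ≤ K)
    (hN : 0 ≤ N) (hNL : N ≤ L) (d2 : Integrable D P)
    (d4 : ∫ ω, D ω ∂P ≤ A * (2 * M + 2 * N)) (d5 : ∀ ω, c ω ≤ 8 * o ω + 6 * D ω + 4 * L)
    (d6 : ∀ ω, V ω ≤ 2 * o ω) (d7 : Integrable V P) (d11 : Integrable F P)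
    (d12 : ∀ ω, Q ≤ V ω + F ω) (d13 : ∫ ω, F ω ∂P ≤ 2 * K / (4 * K) * Q)
    (d14 : M ≤ 4 * (4 * K) * (Q + 2 * N)) :
    ∫ ω, c ω ∂P ≤ 800 * (A * K) * (∫ ω, o ω ∂P + L) := by
  set EO : ℝ := ∫ ω, o ω ∂P with hEO
  have hEO0 : 0 ≤ EO := integral_nonneg ho0
  have e1 : ∫ ω, c ω ∂P ≤ 8 * EO + 6 * ∫ ω, D ω ∂P + 4 * L := by
    have j1 : Integrable (fun ω => 8 * o ω) P := ho.const_mul 8
    have j2 : Integrable (fun ω => 6 * D ω) P := d2.const_mul 6
    have j3 : Integrable (fun _ : Ω => 4 * L) P := integrable_const _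
    have h2 := integral_mono hc ((j1.add j2).add j3) (fun ω => d5 ω)
    have h3 := integral_add (j1.add j2) j3
    have h4 := integral_add j1 j2
    simp only [Pi.add_apply] at h2 h3 h4
    rw [h3, h4, integral_const_mul, integral_const_mul, integral_const] at h2
    simp only [probReal_univ, one_smul] at h2
    exact h2
  have e2 : Q ≤ 2 * EO + 2 * K / (4 * K) * Q := by
    have h2 := integral_mono (integrable_const Q) (d7.add d11) (fun ω => d12 ω)
    have h3 := integral_add d7 d11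
    simp only [Pi.add_apply] at h2 h3
    rw [h3, integral_const] at h2
    simp only [probReal_univ, one_smul] at h2
    have h4 := integral_mono d7 (ho.const_mul 2) (fun ω => d6 ω)
    rw [integral_const_mul] at h4
    linarith
  have e3 : 2 * K / (4 * K) = 1 / 2 := by field_simp; norm_num
  rw [e3] at e2
  have e4 : Q ≤ 4 * EO := by linarith
  have e5 : M ≤ 16 * K * (4 * EO + 2 * N) := by
    calc M ≤ 4 * (4 * K) * (Q + 2 * N) := d14
      _ ≤ 4 * (4 * K) * (4 * EO + 2 * N) := by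
          refine mul_le_mul_of_nonneg_left ?_ (by linarith)
          linarith
      _ = 16 * K * (4 * EO + 2 * N) := by ring
  have hL0 : 0 ≤ L := le_trans hN hNL
  have e6 : ∫ ω, D ω ∂P ≤ A * K * (128 * EO + 66 * L) := by
    have h2 : 2 * M + 2 * N ≤ K * (128 * EO + 66 * L) := by
      have h3 : N ≤ K * L := by nlinarith
      have h4 : K * N ≤ K * L := mul_le_mul_of_nonneg_left hNL (by linarith)
      linarith
    calc ∫ ω, D ω ∂P ≤ A * (2 * M + 2 * N) := d4
      _ ≤ A * (K * (128 * EO + 66 * L)) := mul_le_mul_of_nonneg_left h2 (by linarith)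
      _ = A * K * (128 * EO + 66 * L) := by ring
  have hAK : 1 ≤ A * K := by nlinarith
  have e7 : EO ≤ A * K * EO := by nlinarith
  have e8 : L ≤ A * K * L := by nlinarith
  have e9 : 0 ≤ A * K * EO := by positivity
  have e10 : 0 ≤ A * K * L := by positivity
  nlinarith

/-- The comparison in probability, abstract form. -/
theorem coreP {P : Measure Ω} [IsProbabilityMeasure P] {c o D V F : Ω → ℝ} {M Q A K N L ε : ℝ}
    (hε : 0 < ε) (hε1 : ε ≤ 1) (ho0 : ∀ ω, 0 ≤ o ω) (hA : 1 ≤ A) (hK1 : 1 ≤ K)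
    (hN : 0 < N) (hNL : N ≤ L) (d1 : ∀ ω, 0 ≤ D ω) (d2 : Integrable D P) (d3 : 0 ≤ M)
    (d4 : ∫ ω, D ω ∂P ≤ A * (2 * M + 2 * N)) (d5 : ∀ ω, c ω ≤ 8 * o ω + 6 * D ω + 4 * L)
    (d6 : ∀ ω, V ω ≤ 2 * o ω) (d8 : ∀ ω, 0 ≤ F ω) (d9 : ∀ ω, F ω ≤ Q) (d10 : 0 ≤ Q)
    (d11 : Integrable F P)
    (d12 : ∀ ω, Q ≤ V ω + F ω) (d13 : ∫ ω, F ω ∂P ≤ 2 * K / (8 * K / ε) * Q)
    (d14 : M ≤ 4 * (8 * K / ε) * (Q + 2 * N)) :
    P.real {ω | 3100 * (A * K) / ε ^ 2 * (o ω + L) < c ω} ≤ ε := by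
  have hL0 : 0 ≤ L := le_trans hN.le hNL
  set E0 : ℝ := A * (2 * M + 2 * N) with hE0
  have hE0pos : 0 < E0 := by
    have : 0 < 2 * M + 2 * N := by linarith
    exact mul_pos (by linarith) this
  -- the two exceptional events
  have p1 : P.real {ω | Q < 2 * F ω} ≤ ε / 2 := by
    rcases eq_or_lt_of_le d10 with h0 | h0
    · have : {ω | Q < 2 * F ω} = ∅ := by
        ext ω
        have := d9 ω
        simp only [Set.mem_ofPred_eq, Set.mem_empty_iff_false, iff_false, not_lt]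
        linarith
      rw [this, measureReal_empty]
      linarith
    · have h2 := mul_meas_ge_le_integral_of_nonneg (μ := P) (f := F)
        (Filter.Eventually.of_forall d8) d11 (Q / 2)
      have h3 : P.real {ω | Q < 2 * F ω} ≤ P.real {ω | Q / 2 ≤ F ω} := by
        refine measureReal_mono ?_
        intro ω hω
        simp only [Set.mem_ofPred_eq] at hω ⊢
        linarith
      have h4 : 2 * K / (8 * K / ε) = ε / 4 := by
        have : K ≠ 0 := by linarith
        have : ε ≠ 0 := hε.ne'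
        field_simp
        norm_num
      rw [h4] at d13
      have h5 : Q / 2 * P.real {ω | Q / 2 ≤ F ω} ≤ Q / 2 * (ε / 2) := by linarith
      have h6 := le_of_mul_le_mul_left h5 (by linarith)
      linarith
  have p2 : P.real {ω | 2 / ε * E0 < D ω} ≤ ε / 2 := by
    have h2 := mul_meas_ge_le_integral_of_nonneg (μ := P) (f := D)
      (Filter.Eventually.of_forall d1) d2 (2 / ε * E0)
    have h3 : P.real {ω | 2 / ε * E0 < D ω} ≤ P.real {ω | 2 / ε * E0 ≤ D ω} := by
      refine measureReal_mono ?_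
      intro ω hω
      simp only [Set.mem_ofPred_eq] at hω ⊢
      linarith
    have h4 : 2 / ε * E0 * P.real {ω | 2 / ε * E0 ≤ D ω} ≤ 2 / ε * E0 * (ε / 2) := by
      have e : 2 / ε * E0 * (ε / 2) = E0 := by
        have : ε ≠ 0 := hε.ne'
        field_simp
      rw [e]
      linarith
    have h5 := le_of_mul_le_mul_left h4 (by positivity)
    linarith
  -- outside them
  have hsub : {ω | 3100 * (A * K) / ε ^ 2 * (o ω + L) < c ω} ⊆
      {ω | Q < 2 * F ω} ∪ {ω | 2 / ε * E0 < D ω} := by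
    intro ω hω
    by_contra hcon
    simp only [Set.mem_union, Set.mem_ofPred_eq, not_or, not_lt] at hcon hω
    obtain ⟨c1, c2⟩ := hcon
    have hop0 : 0 ≤ o ω := ho0 ω
    have c3 : Q ≤ 4 * o ω := by
      have := d12 ω
      have := d6 ω
      linarith
    set u : ℝ := 1 / ε with hu
    have hu1 : 1 ≤ u := by rw [hu, le_div_iff₀ hε]; linarith
    have c4 : M ≤ 32 * (K * u) * (4 * o ω + 2 * N) := by
      calc M ≤ 4 * (8 * K / ε) * (Q + 2 * N) := d14
        _ ≤ 4 * (8 * K / ε) * (4 * o ω + 2 * N) := by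
            refine mul_le_mul_of_nonneg_left ?_ (by positivity)
            linarith
        _ = 32 * (K * u) * (4 * o ω + 2 * N) := by rw [hu]; ring
    have hKu : 1 ≤ K * u := by nlinarith
    have c5 : 2 * M + 2 * N ≤ K * u * (256 * o ω + 130 * L) := by
      have h3 : N ≤ K * u * L := by nlinarith
      have h4 : K * u * N ≤ K * u * L :=
        mul_le_mul_of_nonneg_left hNL (by linarith)
      linarith
    have c6 : D ω ≤ 2 * u * (A * (K * u * (256 * o ω + 130 * L))) := by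
      calc D ω ≤ 2 / ε * E0 := c2
        _ = 2 * u * E0 := by rw [hu]; ring
        _ ≤ 2 * u * (A * (K * u * (256 * o ω + 130 * L))) := by
            refine mul_le_mul_of_nonneg_left ?_ (by linarith)
            rw [hE0]
            exact mul_le_mul_of_nonneg_left c5 (by linarith)
    have e1 : 3100 * (A * K) / ε ^ 2 = 3100 * (A * K * u ^ 2) := by rw [hu]; ring
    rw [e1] at hω
    have e2 : 2 * u * (A * (K * u * (256 * o ω + 130 * L))) =
        A * K * u ^ 2 * (512 * o ω + 260 * L) := by ring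
    rw [e2] at c6
    have hG : 1 ≤ A * K * u ^ 2 := by
      have h3 : 1 ≤ A * K := by nlinarith
      have h4 : 1 ≤ u ^ 2 := by nlinarith
      nlinarith
    set G : ℝ := A * K * u ^ 2 with hGdef
    have c7 := d5 ω
    have g1 : o ω ≤ G * o ω := by nlinarith
    have g2 : L ≤ G * L := by nlinarith
    have g3 : 0 ≤ G * o ω := by positivity
    have g4 : 0 ≤ G * L := by positivity
    nlinarith
  calc _ ≤ P.real ({ω | Q < 2 * F ω} ∪ {ω | 2 / ε * E0 < D ω}) := measureReal_mono hsub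
    _ ≤ _ := measureReal_union_le _ _
    _ ≤ ε := by linarith

/-! ### several phases -/

/-- The list of all requests of the phases `0, …, J - 1`, of the lengths `m 0, …, m (J - 1)`. -/
def allReqs {J : ℕ} (X : Fin J → ℕ → Ω → ℕ) (m : Fin J → ℕ) (ω : Ω) : List ℕ :=
  cat fun j => reqs (X j) (m j) ω

theorem allReqs_int (P : Measure Ω) [IsProbabilityMeasure P] {J : ℕ} {X : Fin J → ℕ → Ω → ℕ}
    (hX : ∀ j t, Measurable (X j t)) {Ks : List ℕ} (hK : ∀ j t ω, X j t ω ∈ Ks) (m : Fin J → ℕ)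
    (f : List ℕ → ℝ) : Integrable (fun ω => f (allReqs X m ω)) P := by
  classical
  have e : (fun ω => f (allReqs X m ω)) =
      (fun v : (j : Fin J) → Fin (m j) → ℕ => f (cat fun j => List.ofFn (v j))) ∘
        fun ω j i => X j i ω := by
    funext ω
    simp only [Function.comp, allReqs, reqs_ofFn]
  have hmeas : Measurable fun ω => f (allReqs X m ω) := by
    rw [e]
    exact (measurable_of_countable _).comp
      (measurable_pi_lambda _ fun j => measurable_pi_lambda _ fun i => hX j i)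
  refine Integrable.of_bound hmeas.aestronglyMeasurable
    (∑ v ∈ Fintype.piFinset (fun j : Fin J => Fintype.piFinset (fun _ : Fin (m j) =>
      Ks.toFinset)), |f (cat fun j => List.ofFn (v j))|) ?_
  refine Filter.Eventually.of_forall fun ω => ?_
  rw [Real.norm_eq_abs]
  have e2 : f (allReqs X m ω) = f (cat fun j => List.ofFn fun i : Fin (m j) => X j i ω) := by
    simp only [allReqs, reqs_ofFn]
  rw [e2]
  exact Finset.single_le_sum
    (f := fun v : (j : Fin J) → Fin (m j) → ℕ => |f (cat fun j => List.ofFn (v j))|)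
    (fun v _ => abs_nonneg _) (Fintype.mem_piFinset.2 fun j => Fintype.mem_piFinset.2 fun i =>
      List.mem_toFinset.2 (hK j i ω))

theorem splay_phases {T : Tr} (hT : IsBST T) : ∀ (J : ℕ) (Y : Fin J → List ℕ) (g : Fin J → ℝ),
    (∀ j, ∀ x ∈ Y j, x ∈ keys T) →
    (∀ j, ∀ S : Tr, IsBST S → keys S = keys T → (costSplay S (Y j) : ℝ) ≤ g j) →
    ∀ S : Tr, IsBST S → keys S = keys T → (costSplay S (cat Y) : ℝ) ≤ ∑ j, g j := by
  intro J
  induction J with
  | zero => intro Y g _ _ S _ _; simp [cat, costSplay]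
  | succ J ih =>
    intro Y g hY hg S hS hSk
    have e : cat Y = Y 0 ++ cat (fun i : Fin J => Y i.succ) := by
      simp [cat, List.ofFn_succ]
    have hk := runS_keys (Y 0) S hS (fun x hx => by rw [hSk]; exact hY 0 x hx)
    have h1 := ih (fun i => Y i.succ) (fun i => g i.succ) (fun i => hY i.succ)
      (fun i => hg i.succ) (runS S (Y 0)) (by unfold IsBST; rw [hk]; exact hS)
      (by rw [hk, hSk])
    have h2 := hg 0 S hS hSk
    rw [e, costSplay_append, Fin.sum_univ_succ]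
    push_cast
    linarith

theorem cat_mem {J : ℕ} {Y : Fin J → List ℕ} {K : List ℕ} (h : ∀ j, ∀ x ∈ Y j, x ∈ K) :
    ∀ x ∈ cat Y, x ∈ K := by
  intro x hx
  unfold cat at hx
  rw [List.mem_flatten] at hx
  obtain ⟨B, h1, h2⟩ := hx
  rw [List.mem_ofFn] at h1
  obtain ⟨j, rfl⟩ := h1
  exact h j x h2

theorem cat_length {J : ℕ} (Y : Fin J → List ℕ) :
    ((cat Y).length : ℝ) = ∑ j, ((Y j).length : ℝ) := by
  unfold cat
  rw [List.length_flatten, List.map_ofFn, List.sum_ofFn]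
  push_cast
  rfl

/-- Everything that is needed about the phases. -/
theorem setupJ {T : Tr} (hT : IsBST T) (h1 : 1 ≤ (keys T).length)
    {P : Measure Ω} [IsProbabilityMeasure P] {J : ℕ} {X : Fin J → ℕ → Ω → ℕ}
    (hX : ∀ j t, Measurable (X j t))
    (hK : ∀ j t ω, X j t ω ∈ keys T) {m : Fin J → ℕ} {π : Fin J → ℕ → ℝ}
    (hπ0 : ∀ j x, 0 ≤ π j x)
    (hπ1 : ∀ j, ∑ x ∈ (keys T).toFinset, π j x ≤ 1) {A K : ℝ} (hA : 1 ≤ A)
    (hS : ∀ j, Spread P (X j) (m j) (keys T) (π j) A K) {B : ℝ} (hB : 1 ≤ B) :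
    ∃ (D V F : Ω → ℝ) (M Q : ℝ), (∀ ω, 0 ≤ D ω) ∧ Integrable D P ∧ 0 ≤ M ∧
      ∫ ω, D ω ∂P ≤ A * (2 * M + 2 * (J * (keys T).length)) ∧
      (∀ ω, (costSplay T (allReqs X m ω) : ℝ) ≤ 8 * (optAny (keys T) (allReqs X m ω) : ℝ) +
        6 * D ω + 4 * (J * nlog T)) ∧
      (∀ ω, V ω ≤ 2 * (optAny (keys T) (allReqs X m ω) : ℝ)) ∧ Integrable V P ∧
      (∀ ω, 0 ≤ F ω) ∧ (∀ ω, F ω ≤ Q) ∧ 0 ≤ Q ∧ Integrable F P ∧
      (∀ ω, Q ≤ V ω + F ω) ∧ ∫ ω, F ω ∂P ≤ 2 * K / B * Q ∧
      M ≤ 4 * B * (Q + 2 * (J * (keys T).length)) := by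
  choose D V F M Q d1 d2 d3 d4 d5 d6 d7 d8 d9 d10 d11 d12 d13 d14 using
    fun j => setup h1 (P := P) (hX j) (hK j) (hπ0 j) (hπ1 j) hA (hS j) hB
  have hmem : ∀ ω j, ∀ x ∈ reqs (X j) (m j) ω, x ∈ keys T := fun ω j => reqs_mem (hK j) (m j) ω
  have hcard : ∀ c : ℝ, ∑ _j : Fin J, c = J * c := by
    intro c
    rw [Finset.sum_const, Finset.card_univ, Fintype.card_fin, nsmul_eq_mul]
  refine ⟨fun ω => ∑ j, D j ω, fun ω => ∑ j, V j ω, fun ω => ∑ j, F j ω, ∑ j, M j, ∑ j, Q j,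
    fun ω => Finset.sum_nonneg fun j _ => d1 j ω, integrable_finsetSum _ fun j _ => d2 j,
    Finset.sum_nonneg fun j _ => d3 j, ?_, ?_, ?_, integrable_finsetSum _ fun j _ => d7 j,
    fun ω => Finset.sum_nonneg fun j _ => d8 j ω,
    fun ω => Finset.sum_le_sum fun j _ => d9 j ω, Finset.sum_nonneg fun j _ => d10 j,
    integrable_finsetSum _ fun j _ => d11 j, ?_, ?_, ?_⟩
  · rw [integral_finsetSum _ fun j _ => d2 j]
    refine le_trans (Finset.sum_le_sum fun j _ => d4 j) (le_of_eq ?_)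
    rw [← Finset.mul_sum, Finset.sum_add_distrib, ← Finset.mul_sum, hcard]
    ring
  · intro ω
    have h2 := splay_phases hT J (fun j => reqs (X j) (m j) ω)
      (fun j => 8 * m j + 6 * D j ω + 4 * nlog T) (hmem ω) (fun j S hS hSk => d5 j ω S hS hSk)
      T hT rfl
    have h3 := opt_len (T := T) (Y := allReqs X m ω)
    have h4 : ((allReqs X m ω).length : ℝ) = ∑ j, (m j : ℝ) := by
      unfold allReqs
      rw [cat_length]
      simp only [reqs_length]
    rw [h4] at h3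
    rw [Finset.sum_add_distrib, Finset.sum_add_distrib, ← Finset.mul_sum, ← Finset.mul_sum,
      hcard] at h2
    unfold allReqs at h3 ⊢
    linarith
  · intro ω
    have h2 : (∑ j, V j ω) / 2 ≤ (optAny (keys T) (allReqs X m ω) : ℝ) := by
      refine optAny_ge (T := T) rfl ?_
      intro T' c hT' hE
      have h3 := exec_windows (K := keys T) J (fun j => reqs (X j) (m j) ω)
        (fun j => V j ω / 2) ?_ T' c hT' hE
      · rw [← Finset.sum_div] at h3
        exact h3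
      · intro j S c' hSk hE'
        have := d6 j ω S c' (by unfold IsBST; rw [hSk]; exact hT) hSk hE'
        linarith
    linarith
  · intro ω
    rw [← Finset.sum_add_distrib]
    exact Finset.sum_le_sum fun j _ => d12 j ω
  · rw [integral_finsetSum _ fun j _ => d11 j, Finset.mul_sum]
    exact Finset.sum_le_sum fun j _ => d13 j
  · refine le_trans (Finset.sum_le_sum fun j _ => d14 j) (le_of_eq ?_)
    rw [← Finset.mul_sum, Finset.sum_add_distrib, hcard]
    ring

/-- The comparison in expectation. -/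
theorem spread_E {T : Tr} (hT : IsBST T) (h1 : 1 ≤ (keys T).length)
    {P : Measure Ω} [IsProbabilityMeasure P] {J : ℕ} {X : Fin J → ℕ → Ω → ℕ}
    (hX : ∀ j t, Measurable (X j t))
    (hK : ∀ j t ω, X j t ω ∈ keys T) {m : Fin J → ℕ} {π : Fin J → ℕ → ℝ}
    (hπ0 : ∀ j x, 0 ≤ π j x)
    (hπ1 : ∀ j, ∑ x ∈ (keys T).toFinset, π j x ≤ 1) {A K : ℝ} (hA : 1 ≤ A) (hK1 : 1 ≤ K)
    (hS : ∀ j, Spread P (X j) (m j) (keys T) (π j) A K) :
    ∫ ω, (costSplay T (allReqs X m ω) : ℝ) ∂P ≤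
      800 * (A * K) * (∫ ω, (optAny (keys T) (allReqs X m ω) : ℝ) ∂P + J * nlog T) := by
  obtain ⟨D, V, F, M, Q, d1, d2, d3, d4, d5, d6, d7, d8, d9, d10, d11, d12, d13, d14⟩ :=
    setupJ hT h1 hX hK hπ0 hπ1 hA hS (B := 4 * K) (by linarith)
  exact coreE (allReqs_int P hX hK m fun Y => (costSplay T Y : ℝ))
    (allReqs_int P hX hK m fun Y => (optAny (keys T) Y : ℝ)) (fun ω => Nat.cast_nonneg _) hA hK1
    (by positivity) (mul_le_mul_of_nonneg_left (nlog_ge h1) (Nat.cast_nonneg _))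
    d2 d4 d5 d6 d7 d11 d12 d13 d14

/-- The comparison in probability. -/
theorem spread_P {T : Tr} (hT : IsBST T) (h1 : 1 ≤ (keys T).length)
    {P : Measure Ω} [IsProbabilityMeasure P] {J : ℕ} {X : Fin J → ℕ → Ω → ℕ}
    (hX : ∀ j t, Measurable (X j t))
    (hK : ∀ j t ω, X j t ω ∈ keys T) {m : Fin J → ℕ} {π : Fin J → ℕ → ℝ}
    (hπ0 : ∀ j x, 0 ≤ π j x)
    (hπ1 : ∀ j, ∑ x ∈ (keys T).toFinset, π j x ≤ 1) {A K : ℝ} (hA : 1 ≤ A) (hK1 : 1 ≤ K)
    (hS : ∀ j, Spread P (X j) (m j) (keys T) (π j) A K) {ε : ℝ} (hε : 0 < ε) :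
    P.real {ω | 3100 * (A * K) / ε ^ 2 *
      ((optAny (keys T) (allReqs X m ω) : ℝ) + J * nlog T) <
        (costSplay T (allReqs X m ω) : ℝ)} ≤ ε := by
  rcases le_or_gt ε 1 with hε1 | hε1
  swap
  · exact le_trans measureReal_le_one hε1.le
  rcases Nat.eq_zero_or_pos J with hJ | hJ
  · subst hJ
    have e : {ω | 3100 * (A * K) / ε ^ 2 *
        ((optAny (keys T) (allReqs X m ω) : ℝ) + (0 : ℕ) * nlog T) <
        (costSplay T (allReqs X m ω) : ℝ)} = ∅ := by
      ext ω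
      simp only [Set.mem_ofPred_eq, Set.mem_empty_iff_false, iff_false, not_lt]
      have : (costSplay T (allReqs X m ω) : ℝ) = 0 := by simp [allReqs, cat, costSplay]
      rw [this]
      have hA0 : 0 ≤ A := by linarith
      have hK0 : 0 ≤ K := by linarith
      simp only [Nat.cast_zero, zero_mul, add_zero]
      positivity
    rw [e, measureReal_empty]
    exact hε.le
  have hB : 1 ≤ 8 * K / ε := by
    rw [le_div_iff₀ hε]; linarith
  obtain ⟨D, V, F, M, Q, d1, d2, d3, d4, d5, d6, d7, d8, d9, d10, d11, d12, d13, d14⟩ :=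
    setupJ hT h1 hX hK hπ0 hπ1 hA hS hB
  have hJ' : (0 : ℝ) < J := by exact_mod_cast hJ
  have hn' : (0 : ℝ) < (keys T).length := by exact_mod_cast h1
  exact coreP hε hε1 (fun ω => Nat.cast_nonneg _) hA hK1
    (by positivity) (mul_le_mul_of_nonneg_left (nlog_ge h1) (Nat.cast_nonneg _))
    d1 d2 d3 d4 d5 d6 d8 d9 d10 d11 d12 d13 d14

end Pool.Agent.Q167.DO
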