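import Pool.Agent.Q167.DO.C

set_option autoImplicit false

/-! Families of spread requests: decaying correlations, pairwise independent requests. -/

namespace Pool.Agent.Q167.DO

open Pool.Agent.H581R2.Splay Pool.Agent.TH49.Spl Tr MeasureTheory ProbabilityTheory

variable {Ω : Type*} [MeasurableSpace Ω]

/-- the request number `t` lies in `[l, r)` -/
def ev (X : ℕ → Ω → ℕ) (l r t : ℕ) : Set Ω := {ω | l ≤ X t ω ∧ X t ω < r}

theorem second (P : Measure Ω) [IsProbabilityMeasure P] {E : ℕ → Set Ω}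
    (hme : ∀ t, MeasurableSet (E t)) {s w : ℕ} {a K : ℝ} (hK : 0 ≤ K)
    (h1 : ∀ t, s ≤ t → t < s + w → P.real (E t) = a)
    (h2 : ∑ t ∈ Finset.Ico s (s + w), ∑ u ∈ Finset.Ico s (s + w),
      P.real (E t ∩ E u) ≤ (w * a) ^ 2 + K * (w * a)) :
    P.real {ω | ∀ t, s ≤ t → t < s + w → ω ∉ E t} * (w * a) ≤ K := by
  rcases Nat.eq_zero_or_pos w with hw | hw
  · subst hw
    simpa using hK
  have ha : 0 ≤ a := by
    rw [← h1 s (le_refl _) (by omega)]
    exact measureReal_nonneg
  have hwa : (0 : ℝ) ≤ w * a := by positivity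
  rcases eq_or_lt_of_le hwa with h0 | h0
  · rw [← h0, mul_zero]
    exact hK
  set I := Finset.Ico s (s + w) with hI
  have hcard : (I.card : ℝ) = w := by rw [hI, Nat.card_Ico]; congr 1; omega
  set f : Ω → ℝ := fun ω => (∑ t ∈ I, (E t).indicator (fun _ => (1 : ℝ)) ω - w * a) ^ 2
    with hf
  have hint1 : ∀ t ∈ I, Integrable (fun ω => (E t).indicator (fun _ => (1 : ℝ)) ω) P :=
    fun t _ => (integrable_const (1 : ℝ)).indicator (hme t)
  have hint2 : ∀ t ∈ I, ∀ u ∈ I, Integrable
      (fun ω => (E t ∩ E u).indicator (fun _ => (1 : ℝ)) ω) P :=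
    fun t _ u _ => (integrable_const (1 : ℝ)).indicator ((hme t).inter (hme u))
  have hint3 : Integrable (fun ω => ∑ t ∈ I, ∑ u ∈ I,
      (E t ∩ E u).indicator (fun _ => (1 : ℝ)) ω) P :=
    integrable_finsetSum _ fun t ht => integrable_finsetSum _ fun u hu => hint2 t ht u hu
  have hint4 : Integrable (fun ω => ∑ t ∈ I, (E t).indicator (fun _ => (1 : ℝ)) ω) P :=
    integrable_finsetSum _ hint1
  have ef : ∀ ω, f ω = (∑ t ∈ I, ∑ u ∈ I,
      (E t ∩ E u).indicator (fun _ => (1 : ℝ)) ω) +
      ((-(2 * (w * a))) * (∑ t ∈ I, (E t).indicator (fun _ => (1 : ℝ)) ω) +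
        (w * a) ^ 2) := by
    intro ω
    have e1 : (∑ t ∈ I, ∑ u ∈ I,
        (E t ∩ E u).indicator (fun _ => (1 : ℝ)) ω) =
        (∑ t ∈ I, (E t).indicator (fun _ => (1 : ℝ)) ω) *
          (∑ t ∈ I, (E t).indicator (fun _ => (1 : ℝ)) ω) := by
      rw [Finset.sum_mul_sum]
      refine Finset.sum_congr rfl fun t _ => Finset.sum_congr rfl fun u _ => ?_
      classical
      simp only [Set.indicator_apply, Set.mem_inter_iff]
      split_ifs <;> simp_all
    rw [e1, hf]
    ring
  have hfi : Integrable f P := by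
    have : f = fun ω => (∑ t ∈ I, ∑ u ∈ I,
      (E t ∩ E u).indicator (fun _ => (1 : ℝ)) ω) +
      ((-(2 * (w * a))) * (∑ t ∈ I, (E t).indicator (fun _ => (1 : ℝ)) ω) +
        (w * a) ^ 2) := funext ef
    rw [this]
    exact hint3.add ((hint4.const_mul _).add (integrable_const _))
  have hfE : ∫ ω, f ω ∂P ≤ K * (w * a) := by
    have e2 := integral_add hint3 ((hint4.const_mul (-(2 * (w * a)))).add
      (integrable_const ((w * a) ^ 2)))
    have e3 := integral_add (hint4.const_mul (-(2 * (w * a)))) (integrable_const (μ := P) ((w * a) ^ 2))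
    simp only [Pi.add_apply] at e2 e3
    simp_rw [ef]
    rw [e2, e3, integral_const_mul, integral_const]
    simp only [probReal_univ, one_smul]
    rw [integral_finsetSum _ fun t ht => integrable_finsetSum _ fun u hu => hint2 t ht u hu,
      integral_finsetSum _ hint1]
    have e4 : ∑ t ∈ I, ∫ ω, (∑ u ∈ I,
        (E t ∩ E u).indicator (fun _ => (1 : ℝ)) ω) ∂P =
        ∑ t ∈ I, ∑ u ∈ I, P.real (E t ∩ E u) := by
      refine Finset.sum_congr rfl fun t ht => ?_
      rw [integral_finsetSum _ fun u hu => hint2 t ht u hu]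
      refine Finset.sum_congr rfl fun u _ => ?_
      rw [integral_indicator_const _ ((hme t).inter (hme u)), smul_eq_mul, mul_one]
    have e5 : ∑ t ∈ I, ∫ ω, (E t).indicator (fun _ => (1 : ℝ)) ω ∂P = w * a := by
      rw [← hcard, ← nsmul_eq_mul, ← Finset.sum_const]
      refine Finset.sum_congr rfl fun t ht => ?_
      rw [integral_indicator_const _ (hme t), smul_eq_mul, mul_one]
      rw [hI, Finset.mem_Ico] at ht
      exact h1 t ht.1 ht.2
    rw [e4, e5]
    nlinarith [h2]
  have hM := mul_meas_ge_le_integral_of_nonneg (μ := P) (f := f)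
    (Filter.Eventually.of_forall fun ω => sq_nonneg _) hfi ((w * a) ^ 2)
  have hsub : P.real {ω | ∀ t, s ≤ t → t < s + w → ω ∉ E t} ≤
      P.real {ω | (w * a) ^ 2 ≤ f ω} := by
    refine measureReal_mono ?_
    intro ω hω
    have e6 : ∑ t ∈ I, (E t).indicator (fun _ => (1 : ℝ)) ω = 0 := by
      refine Finset.sum_eq_zero fun t ht => ?_
      rw [hI, Finset.mem_Ico] at ht
      exact Set.indicator_of_notMem (s := E t) (hω t ht.1 ht.2) (fun _ => (1 : ℝ))
    have e7 : f ω = (w * a) ^ 2 := by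
      rw [hf]
      simp only [e6]
      ring
    exact e7.ge
  have h5 : w * a * (P.real {ω | ∀ t, s ≤ t → t < s + w → ω ∉ E t} * (w * a)) ≤
      w * a * K := by
    have h6 := mul_le_mul_of_nonneg_left hsub (sq_nonneg ((w : ℝ) * a))
    nlinarith
  exact le_of_mul_le_mul_left h5 h0

theorem law_mass (P : Measure Ω) [IsProbabilityMeasure P] {X : ℕ → Ω → ℕ}
    (hX : ∀ t, Measurable (X t)) {Ks : List ℕ} (hK : ∀ t ω, X t ω ∈ Ks) {π : ℕ → ℝ} {t : ℕ}
    (hlaw : ∀ x ∈ Ks, P.real {ω | X t ω = x} = π x) (l r : ℕ) :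
    P.real (ev X l r t) = mass Ks π l r := by
  have e : ev X l r t = ⋃ x ∈ Ks.toFinset.filter (fun x => l ≤ x ∧ x < r), {ω | X t ω = x} := by
    ext ω
    simp only [ev, Set.mem_ofPred_eq, Finset.mem_filter, List.mem_toFinset, Set.mem_iUnion,
      exists_prop]
    constructor
    · intro h
      exact ⟨X t ω, ⟨hK t ω, h⟩, rfl⟩
    · rintro ⟨x, ⟨-, h⟩, h2⟩
      rw [h2]; exact h
  rw [e, measureReal_biUnion_finset]
  · unfold mass
    refine Finset.sum_congr rfl fun x hx => hlaw x ?_
    exact List.mem_toFinset.1 (Finset.mem_filter.1 hx).1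
  · intro x _ y _ hxy
    rw [Function.onFun, Set.disjoint_left]
    intro ω h1 h2
    simp only [Set.mem_ofPred_eq] at h1 h2
    exact hxy (h1.symm.trans h2)
  · intro x _
    exact (hX t) (MeasurableSet.singleton x)

theorem corr_sum {κ : ℕ → ℝ} (hκ : ∀ k, 0 ≤ κ k) {m s w t : ℕ} (hm : s + w ≤ m)
    (h1 : s ≤ t) (h2 : t < s + w) :
    ∑ u ∈ Finset.Ico s (s + w), κ ((t - u) + (u - t)) ≤ κ 0 + 2 * ∑ k ∈ Finset.Ico 1 m, κ k := by
  have e1 : ∑ u ∈ Finset.Ico s (s + w), κ ((t - u) + (u - t)) =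
      ∑ u ∈ Finset.Ico s t, κ ((t - u) + (u - t)) +
        ∑ u ∈ Finset.Ico t (s + w), κ ((t - u) + (u - t)) :=
    (Finset.sum_Ico_consecutive _ h1 h2.le).symm
  have e2 : ∑ u ∈ Finset.Ico t (s + w), κ ((t - u) + (u - t)) =
      κ ((t - t) + (t - t)) + ∑ u ∈ Finset.Ico (t + 1) (s + w), κ ((t - u) + (u - t)) :=
    Finset.sum_eq_sum_Ico_succ_bot h2 _
  have e3 : ∑ u ∈ Finset.Ico s t, κ ((t - u) + (u - t)) ≤ ∑ k ∈ Finset.Ico 1 m, κ k := by
    have : ∑ u ∈ Finset.Ico s t, κ ((t - u) + (u - t)) =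
        ∑ k ∈ (Finset.Ico s t).image (fun u => (t - u) + (u - t)), κ k := by
      rw [Finset.sum_image]
      intro u hu v hv huv
      simp only [Finset.coe_Ico, Set.mem_Ico] at hu hv
      simp only at huv
      omega
    rw [this]
    refine Finset.sum_le_sum_of_subset_of_nonneg ?_ fun k _ _ => hκ k
    intro k hk
    rw [Finset.mem_image] at hk
    obtain ⟨u, hu, rfl⟩ := hk
    rw [Finset.mem_Ico] at hu ⊢
    omega
  have e4 : ∑ u ∈ Finset.Ico (t + 1) (s + w), κ ((t - u) + (u - t)) ≤
      ∑ k ∈ Finset.Ico 1 m, κ k := by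
    have : ∑ u ∈ Finset.Ico (t + 1) (s + w), κ ((t - u) + (u - t)) =
        ∑ k ∈ (Finset.Ico (t + 1) (s + w)).image (fun u => (t - u) + (u - t)), κ k := by
      rw [Finset.sum_image]
      intro u hu v hv huv
      simp only [Finset.coe_Ico, Set.mem_Ico] at hu hv
      simp only at huv
      omega
    rw [this]
    refine Finset.sum_le_sum_of_subset_of_nonneg ?_ fun k _ _ => hκ k
    intro k hk
    rw [Finset.mem_image] at hk
    obtain ⟨u, hu, rfl⟩ := hk
    rw [Finset.mem_Ico] at hu ⊢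
    omega
  rw [e1, e2]
  simp only [Nat.sub_self, add_zero]
  linarith

/-- Identically distributed requests with summable correlations are spread. -/
theorem spread_corr (P : Measure Ω) [IsProbabilityMeasure P] {X : ℕ → Ω → ℕ}
    (hX : ∀ t, Measurable (X t)) {Ks : List ℕ} (hK : ∀ t ω, X t ω ∈ Ks) {π : ℕ → ℝ} {m : ℕ}
    (hlaw : ∀ t, t < m → ∀ x ∈ Ks, P.real {ω | X t ω = x} = π x) {κ : ℕ → ℝ}
    (hκ : ∀ k, 0 ≤ κ k) {K : ℝ} (hκK : κ 0 + 2 * ∑ k ∈ Finset.Ico 1 m, κ k ≤ K)
    (hc : ∀ l r s k, s + k < m → P.real (ev X l r s ∩ ev X l r (s + k)) ≤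
      mass Ks π l r ^ 2 + κ k * mass Ks π l r) : Spread P X m Ks π 1 K := by
  have hK0 : 0 ≤ K := by
    have h1 : 0 ≤ ∑ k ∈ Finset.Ico 1 m, κ k := Finset.sum_nonneg fun k _ => hκ k
    have := hκ 0
    linarith
  refine ⟨fun l r => ?_, fun l r s w hw => ?_⟩
  · have : ∑ t ∈ Finset.range m, P.real {ω | l ≤ X t ω ∧ X t ω < r} = m * mass Ks π l r := by
      rw [← nsmul_eq_mul, ← Finset.card_range m, ← Finset.sum_const, Finset.card_range]
      refine Finset.sum_congr rfl fun t ht => ?_
      exact law_mass P hX hK (hlaw t (Finset.mem_range.1 ht)) l r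
    rw [this]
    linarith
  · set a := mass Ks π l r with ha
    have hev : ∀ t, s ≤ t → t < s + w → P.real (ev X l r t) = a :=
      fun t _ h2 => law_mass P hX hK (hlaw t (by omega)) l r
    refine second P (E := fun t => ev X l r t) (fun t => meas_in hX t l r) hK0 hev ?_
    rcases Nat.eq_zero_or_pos w with hw0 | hw0
    · subst hw0; simp
    have ha0 : 0 ≤ a := by
      rw [← hev s (le_refl _) (by omega)]
      exact measureReal_nonneg
    have hterm : ∀ t ∈ Finset.Ico s (s + w), ∑ u ∈ Finset.Ico s (s + w),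
        P.real (ev X l r t ∩ ev X l r u) ≤ w * a ^ 2 + K * a := by
      intro t ht
      rw [Finset.mem_Ico] at ht
      have h3 : ∀ u ∈ Finset.Ico s (s + w), P.real (ev X l r t ∩ ev X l r u) ≤
          a ^ 2 + κ ((t - u) + (u - t)) * a := by
        intro u hu
        rw [Finset.mem_Ico] at hu
        rcases le_total t u with h | h
        · have e : t + ((t - u) + (u - t)) = u := by omega
          have := hc l r t ((t - u) + (u - t)) (by omega)
          rw [e] at this
          exact this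
        · have e : u + ((t - u) + (u - t)) = t := by omega
          have := hc l r u ((t - u) + (u - t)) (by omega)
          rw [e, Set.inter_comm] at this
          exact this
      refine le_trans (Finset.sum_le_sum h3) ?_
      rw [Finset.sum_add_distrib, Finset.sum_const, Nat.card_Ico, nsmul_eq_mul, ← Finset.sum_mul]
      have h4 := corr_sum hκ hw ht.1 ht.2
      have h5 := mul_le_mul_of_nonneg_right (le_trans h4 hκK) ha0
      have e : ((s + w - s : ℕ) : ℝ) = w := by congr 1; omega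
      rw [e]
      linarith
    refine le_trans (Finset.sum_le_sum hterm) ?_
    rw [Finset.sum_const, Nat.card_Ico, nsmul_eq_mul]
    have e : ((s + w - s : ℕ) : ℝ) = w := by congr 1; omega
    rw [e]
    exact le_of_eq (by ring)

/-- Pairwise independent requests with the same law are spread. -/
theorem spread_pair (P : Measure Ω) [IsProbabilityMeasure P] {X : ℕ → Ω → ℕ}
    (hX : ∀ t, Measurable (X t)) {Ks : List ℕ} (hK : ∀ t ω, X t ω ∈ Ks) {π : ℕ → ℝ} {m : ℕ}
    (hlaw : ∀ t, t < m → ∀ x ∈ Ks, P.real {ω | X t ω = x} = π x)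
    (hind : ∀ s t, s < t → t < m → IndepFun (X s) (X t) P) : Spread P X m Ks π 1 1 := by
  refine spread_corr P hX hK hlaw (κ := fun k => if k = 0 then 1 else 0)
    (fun k => by split_ifs <;> norm_num) ?_ ?_
  · have : ∑ k ∈ Finset.Ico 1 m, (if k = 0 then (1 : ℝ) else 0) = 0 := by
      refine Finset.sum_eq_zero fun k hk => ?_
      rw [Finset.mem_Ico] at hk
      rw [if_neg (by omega)]
    simp only [this]
    norm_num
  · intro l r s k hk
    rcases Nat.eq_zero_or_pos k with h0 | h0
    · subst h0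
      have e := law_mass P hX hK (hlaw s (by omega)) l r
      rw [add_zero, Set.inter_self, e]
      simp only [if_true, one_mul]
      nlinarith [sq_nonneg (mass Ks π l r)]
    · have e1 := law_mass P hX hK (hlaw s (by omega)) l r
      have e2 := law_mass P hX hK (hlaw (s + k) hk) l r
      have h3 := (hind s (s + k) (by omega) hk).measure_inter_preimage_eq_mul
        {x | l ≤ x ∧ x < r} {x | l ≤ x ∧ x < r} MeasurableSet.of_discrete MeasurableSet.of_discrete
      have h4 : P.real (ev X l r s ∩ ev X l r (s + k)) =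
          P.real (ev X l r s) * P.real (ev X l r (s + k)) := by
        rw [measureReal_def, measureReal_def, measureReal_def, ← ENNReal.toReal_mul]
        exact congrArg ENNReal.toReal h3
      rw [h4, e1, e2, if_neg (by omega)]
      exact le_of_eq (by ring)

end Pool.Agent.Q167.DO
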