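import Pool.Agent.Q167.DO.D

set_option autoImplicit false

/-! Requests that are functions of a stationary Markov chain with a spectral gap. -/

namespace Pool.Agent.Q167.DO

open Pool.Agent.H581R2.Splay Pool.Agent.TH49.Spl Tr MeasureTheory ProbabilityTheory

variable {Ω : Type*} [MeasurableSpace Ω] {St : Type*} [Fintype St] [DecidableEq St]

/-- `Q` is a matrix with row sums `1` and stationary weights `μ`, and it contracts the functions of
mean zero in `L²(μ)` by the factor `ρ`. -/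
def Contracts (μ : St → ℝ) (Q : Matrix St St ℝ) (ρ : ℝ) : Prop :=
  (∀ a, 0 ≤ μ a) ∧ (∀ a, ∑ b, Q a b = 1) ∧ (∀ b, ∑ a, μ a * Q a b = μ b) ∧
    ∀ f : St → ℝ, ∑ a, μ a * f a = 0 →
      ∑ a, μ a * (∑ b, Q a b * f b) ^ 2 ≤ ρ ^ 2 * ∑ a, μ a * f a ^ 2

theorem rows {Q : Matrix St St ℝ} (h : ∀ a, ∑ b, Q a b = 1) (k : ℕ) (a : St) :
    ∑ b, (Q ^ k) a b = 1 := by
  induction k with
  | zero =>
    rw [pow_zero]
    simp [Matrix.one_apply]
  | succ k ih =>
    rw [pow_succ]
    simp only [Matrix.mul_apply]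
    rw [Finset.sum_comm]
    simp_rw [← Finset.mul_sum, h, mul_one]
    exact ih

theorem decay {μ : St → ℝ} {Q : Matrix St St ℝ} {ρ : ℝ} (hC : Contracts μ Q ρ) (f : St → ℝ)
    (hf : ∑ a, μ a * f a = 0) (k : ℕ) : ∑ a, μ a * (∑ b, (Q ^ k) a b * f b) = 0 ∧
      ∑ a, μ a * (∑ b, (Q ^ k) a b * f b) ^ 2 ≤ (ρ ^ k) ^ 2 * ∑ a, μ a * f a ^ 2 := by
  obtain ⟨c1, c2, c3, c4⟩ := hC
  induction k with
  | zero =>
    have e : ∀ a, ∑ b, (Q ^ 0) a b * f b = f a := by
      intro a
      rw [pow_zero]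
      simp [Matrix.one_apply]
    simp only [e]
    simp only [pow_zero, one_pow, one_mul]
    exact ⟨hf, le_refl _⟩
  | succ k ih =>
    obtain ⟨i1, i2⟩ := ih
    have e : ∀ a, ∑ b, (Q ^ (k + 1)) a b * f b = ∑ c, Q a c * (∑ b, (Q ^ k) c b * f b) := by
      intro a
      rw [pow_succ']
      simp only [Matrix.mul_apply, Finset.sum_mul, Finset.mul_sum]
      rw [Finset.sum_comm]
      exact Finset.sum_congr rfl fun _ _ => Finset.sum_congr rfl fun _ _ => by ring
    simp only [e]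
    set g : St → ℝ := fun c => ∑ b, (Q ^ k) c b * f b with hg
    refine ⟨?_, ?_⟩
    · have e2 : ∑ a, μ a * (∑ c, Q a c * g c) = ∑ c, μ c * g c := by
        simp only [Finset.mul_sum]
        rw [Finset.sum_comm]
        refine Finset.sum_congr rfl fun c _ => ?_
        rw [← c3 c, Finset.sum_mul]
        exact Finset.sum_congr rfl fun _ _ => by ring
      rw [e2]
      exact i1
    · calc ∑ a, μ a * (∑ c, Q a c * g c) ^ 2 ≤ ρ ^ 2 * ∑ a, μ a * g a ^ 2 := c4 g i1
        _ ≤ ρ ^ 2 * ((ρ ^ k) ^ 2 * ∑ a, μ a * f a ^ 2) :=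
            mul_le_mul_of_nonneg_left i2 (sq_nonneg _)
        _ = (ρ ^ (k + 1)) ^ 2 * ∑ a, μ a * f a ^ 2 := by ring

theorem corr_alg {μ : St → ℝ} {Q : Matrix St St ℝ} {ρ : ℝ} (hC : Contracts μ Q ρ) (hρ : 0 ≤ ρ)
    (h1 : ∑ a, μ a = 1) (i : St → ℝ) (hi : ∀ a, i a = 0 ∨ i a = 1) (k : ℕ) :
    ∑ a, μ a * (i a * ∑ b, (Q ^ k) a b * i b) ≤
      (∑ a, μ a * i a) ^ 2 + ρ ^ k * ∑ a, μ a * i a := by
  have hC' := hC
  obtain ⟨c1, c2, c3, c4⟩ := hC'
  set q : ℝ := ∑ a, μ a * i a with hq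
  have hq0 : 0 ≤ q := Finset.sum_nonneg fun a _ => mul_nonneg (c1 a) (by
    rcases hi a with h | h <;> rw [h] <;> norm_num)
  clear_value q
  set f : St → ℝ := fun a => i a - q with hf
  have hf0 : ∑ a, μ a * f a = 0 := by
    have : ∑ a, μ a * f a = ∑ a, μ a * i a - q * ∑ a, μ a := by
      rw [Finset.mul_sum, ← Finset.sum_sub_distrib]
      exact Finset.sum_congr rfl fun _ _ => by rw [hf]; ring
    rw [this, h1, ← hq]
    ring
  obtain ⟨d1, d2⟩ := decay hC f hf0 k
  set g : St → ℝ := fun a => ∑ b, (Q ^ k) a b * f b with hg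
  have e1 : ∀ a, ∑ b, (Q ^ k) a b * i b = g a + q := by
    intro a
    have h2 := rows c2 k a
    have : g a = ∑ b, (Q ^ k) a b * i b - q * ∑ b, (Q ^ k) a b := by
      rw [hg, Finset.mul_sum, ← Finset.sum_sub_distrib]
      exact Finset.sum_congr rfl fun _ _ => by rw [hf]; ring
    rw [this, h2]
    ring
  have e2 : ∑ a, μ a * (i a * ∑ b, (Q ^ k) a b * i b) = ∑ a, μ a * (f a * g a) + q ^ 2 := by
    have : ∑ a, μ a * (i a * ∑ b, (Q ^ k) a b * i b) =
        ∑ a, μ a * (f a * g a) + q * ∑ a, μ a * g a + q * ∑ a, μ a * i a := by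
      rw [Finset.mul_sum, Finset.mul_sum, ← Finset.sum_add_distrib, ← Finset.sum_add_distrib]
      refine Finset.sum_congr rfl fun a _ => ?_
      rw [e1 a, hf]
      ring
    rw [this, d1, ← hq]
    ring
  have e3 : ∑ a, μ a * f a ^ 2 ≤ q := by
    have : ∑ a, μ a * f a ^ 2 = ∑ a, μ a * i a - 2 * q * ∑ a, μ a * i a + q ^ 2 * ∑ a, μ a := by
      rw [Finset.mul_sum, Finset.mul_sum, ← Finset.sum_sub_distrib, ← Finset.sum_add_distrib]
      refine Finset.sum_congr rfl fun a _ => ?_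
      have h2 : i a ^ 2 = i a := by
        rcases hi a with h | h <;> rw [h] <;> norm_num
      rw [hf]
      simp only
      rw [sub_sq, h2]
      ring
    rw [this, h1, ← hq]
    nlinarith
  have e4 : 0 ≤ ∑ a, μ a * f a ^ 2 := Finset.sum_nonneg fun a _ => mul_nonneg (c1 a) (sq_nonneg _)
  have e5 : (∑ a, μ a * (f a * g a)) ^ 2 ≤ (ρ ^ k * ∑ a, μ a * f a ^ 2) ^ 2 := by
    have h3 := Finset.sum_mul_sq_le_sq_mul_sq Finset.univ (fun a => Real.sqrt (μ a) * f a)
      (fun a => Real.sqrt (μ a) * g a)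
    have h4 : ∑ a, (Real.sqrt (μ a) * f a) * (Real.sqrt (μ a) * g a) = ∑ a, μ a * (f a * g a) := by
      refine Finset.sum_congr rfl fun a _ => ?_
      have := Real.mul_self_sqrt (c1 a)
      calc (Real.sqrt (μ a) * f a) * (Real.sqrt (μ a) * g a) =
            (Real.sqrt (μ a) * Real.sqrt (μ a)) * (f a * g a) := by ring
        _ = μ a * (f a * g a) := by rw [this]
    have h5 : ∀ v : St → ℝ, ∑ a, (Real.sqrt (μ a) * v a) ^ 2 = ∑ a, μ a * v a ^ 2 := by
      intro v
      refine Finset.sum_congr rfl fun a _ => ?_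
      rw [mul_pow, Real.sq_sqrt (c1 a)]
    rw [h4, h5, h5] at h3
    refine le_trans h3 ?_
    calc (∑ a, μ a * f a ^ 2) * ∑ a, μ a * g a ^ 2 ≤
          (∑ a, μ a * f a ^ 2) * ((ρ ^ k) ^ 2 * ∑ a, μ a * f a ^ 2) :=
          mul_le_mul_of_nonneg_left d2 e4
      _ = (ρ ^ k * ∑ a, μ a * f a ^ 2) ^ 2 := by ring
  have hρk : 0 ≤ ρ ^ k := pow_nonneg hρ k
  have e6 := le_of_abs_le (abs_le_of_sq_le_sq e5 (mul_nonneg hρk e4))
  rw [e2]
  have := mul_le_mul_of_nonneg_left e3 hρk
  linarith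

theorem fin_ev (P : Measure Ω) [IsProbabilityMeasure P] {ι : Type*} [Fintype ι] [DecidableEq ι]
    (Z : Ω → ι) (hZ : ∀ i, MeasurableSet {ω | Z ω = i}) (B : ι → Prop) [DecidablePred B] :
    P.real {ω | B (Z ω)} = ∑ i, if B i then P.real {ω | Z ω = i} else 0 := by
  have e : {ω | B (Z ω)} = ⋃ i ∈ Finset.univ.filter B, {ω | Z ω = i} := by
    ext ω
    simp
  rw [e, measureReal_biUnion_finset, Finset.sum_filter]
  · intro x _ y _ hxy
    rw [Function.onFun, Set.disjoint_left]
    intro ω h1 h2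
    simp only [Set.mem_ofPred_eq] at h1 h2
    exact hxy (h1.symm.trans h2)
  · intro x _
    exact hZ x

/-- A function of a stationary Markov chain with a spectral gap is spread. -/
theorem spread_markov (P : Measure Ω) [IsProbabilityMeasure P] {S : ℕ → Ω → St}
    (hS : ∀ t a, MeasurableSet {ω | S t ω = a}) {key : St → ℕ} {Ks : List ℕ}
    (hkey : ∀ a, key a ∈ Ks) {μ : St → ℝ} {Q : Matrix St St ℝ} {ρ : ℝ} (hC : Contracts μ Q ρ)
    (hρ : 0 ≤ ρ) (hρ1 : ρ < 1) {m : ℕ} (hm : 0 < m)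
    (hpair : ∀ s k, s + k < m → ∀ a b,
      P.real {ω | S s ω = a ∧ S (s + k) ω = b} = μ a * (Q ^ k) a b) :
    (∀ t, Measurable fun ω => key (S t ω)) ∧
    ∑ x ∈ Ks.toFinset, (∑ a, if key a = x then μ a else 0) = 1 ∧
    Spread P (fun t ω => key (S t ω)) m Ks (fun x => ∑ a, if key a = x then μ a else 0) 1
      (2 / (1 - ρ)) := by
  have hone : ∀ t, t < m → ∀ a, P.real {ω | S t ω = a} = μ a := by
    intro t ht a
    have h := hpair t 0 (by omega) a a
    simp only [add_zero, and_self, pow_zero, Matrix.one_apply_eq, mul_one] at h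
    exact h
  have hX : ∀ t, Measurable fun ω => key (S t ω) := by
    intro t
    refine measurable_to_countable' fun x => ?_
    have e : (fun ω => key (S t ω)) ⁻¹' {x} =
        ⋃ a ∈ (Finset.univ.filter fun a => key a = x), {ω | S t ω = a} := by
      ext ω
      simp
    rw [e]
    exact Finset.measurableSet_biUnion _ fun a _ => hS t a
  have hμ1 : ∑ a, μ a = 1 := by
    have h := fin_ev P (S 0) (hS 0) (fun _ => True)
    simp only [if_true] at h
    have e : {ω : Ω | True} = Set.univ := by ext ω; simp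
    rw [e, probReal_univ] at h
    rw [h]
    exact Finset.sum_congr rfl fun a _ => (hone 0 hm a).symm
  have hlaw : ∀ t, t < m → ∀ x ∈ Ks,
      P.real {ω | key (S t ω) = x} = ∑ a, if key a = x then μ a else 0 := by
    intro t ht x _
    rw [fin_ev P (S t) (hS t) (fun a => key a = x)]
    refine Finset.sum_congr rfl fun a _ => ?_
    rw [hone t ht a]
  refine ⟨hX, ?_, ?_⟩
  · rw [Finset.sum_comm]
    rw [← hμ1]
    refine Finset.sum_congr rfl fun a _ => ?_
    rw [Finset.sum_ite_eq, if_pos (List.mem_toFinset.2 (hkey a))]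
  · refine spread_corr P hX (fun t ω => hkey _) hlaw (κ := fun k => ρ ^ k)
      (fun k => pow_nonneg hρ k) ?_ ?_
    · have h1 : ∑ k ∈ Finset.Ico 1 m, ρ ^ k + 1 ≤ 1 / (1 - ρ) := by
        have h2 : (1 - ρ) * ∑ k ∈ Finset.range m, ρ ^ k = 1 - ρ ^ m := mul_neg_geom_sum ρ m
        have h3 : ∑ k ∈ Finset.range m, ρ ^ k = 1 + ∑ k ∈ Finset.Ico 1 m, ρ ^ k := by
          rw [Finset.range_eq_Ico, Finset.sum_eq_sum_Ico_succ_bot hm, pow_zero]
        rw [le_div_iff₀ (by linarith)]
        rw [h3] at h2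
        have := pow_nonneg hρ m
        nlinarith
      have h4 : 2 / (1 - ρ) = 2 * (1 / (1 - ρ)) := by ring
      rw [h4]
      simp only [pow_zero]
      linarith
    · intro l r s k hk
      set i : St → ℝ := fun a => if l ≤ key a ∧ key a < r then 1 else 0 with hi
      have hZ : ∀ z : St × St, MeasurableSet {ω | (S s ω, S (s + k) ω) = z} := by
        rintro ⟨a, b⟩
        have e : {ω | (S s ω, S (s + k) ω) = (a, b)} = {ω | S s ω = a} ∩ {ω | S (s + k) ω = b} := by
          ext ω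
          simp
        rw [e]
        exact (hS s a).inter (hS (s + k) b)
      have e1 := fin_ev P (fun ω => (S s ω, S (s + k) ω)) hZ
        (fun z => (l ≤ key z.1 ∧ key z.1 < r) ∧ (l ≤ key z.2 ∧ key z.2 < r))
      have e2 : P.real (ev (fun t ω => key (S t ω)) l r s ∩
          ev (fun t ω => key (S t ω)) l r (s + k)) = ∑ a, μ a * (i a * ∑ b, (Q ^ k) a b * i b) := by
        have e3 : ev (fun t ω => key (S t ω)) l r s ∩ ev (fun t ω => key (S t ω)) l r (s + k) =
            {ω | (fun z : St × St => (l ≤ key z.1 ∧ key z.1 < r) ∧ (l ≤ key z.2 ∧ key z.2 < r))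
              (S s ω, S (s + k) ω)} := by
          ext ω
          simp [ev]
        rw [e3, e1, Fintype.sum_prod_type]
        refine Finset.sum_congr rfl fun a _ => ?_
        rw [Finset.mul_sum, Finset.mul_sum]
        refine Finset.sum_congr rfl fun b _ => ?_
        have e4 : P.real {ω | (S s ω, S (s + k) ω) = (a, b)} = μ a * (Q ^ k) a b := by
          rw [← hpair s k hk a b]
          congr 1
          ext ω
          simp
        rw [e4]
        simp only [hi]
        by_cases ha : l ≤ key a ∧ key a < r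
        · by_cases hb : l ≤ key b ∧ key b < r
          · rw [if_pos ⟨ha, hb⟩, if_pos ha, if_pos hb]; ring
          · rw [if_neg (fun h => hb h.2), if_neg hb]; ring
        · rw [if_neg (fun h => ha h.1), if_neg ha]; ring
      have e5 : mass Ks (fun x => ∑ a, if key a = x then μ a else 0) l r = ∑ a, μ a * i a := by
        rw [← law_mass P hX (fun t ω => hkey _) (hlaw s (by omega)) l r]
        have e6 : ev (fun t ω => key (S t ω)) l r s =
            {ω | (fun a : St => l ≤ key a ∧ key a < r) (S s ω)} := rfl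
        rw [e6, fin_ev P (S s) (hS s) (fun a => l ≤ key a ∧ key a < r)]
        refine Finset.sum_congr rfl fun a _ => ?_
        rw [hone s (by omega) a]
        simp only [hi]
        split_ifs <;> ring
      rw [e2, e5]
      refine corr_alg hC hρ hμ1 i (fun a => ?_) k
      simp only [hi]
      split_ifs
      · exact Or.inr rfl
      · exact Or.inl rfl

end Pool.Agent.Q167.DO
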