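import Pool.Agent.Q167.DO.C

set_option autoImplicit false

/-! Monotone functions of a rotation with a badly approximable angle. -/

namespace Pool.Agent.Q167.DO

open Pool.Agent.H581R2.Splay Pool.Agent.TH49.Spl Tr MeasureTheory

/-- A deterministic sequence. -/
theorem spread_det {x : ℕ → ℕ} {m : ℕ} {Ks : List ℕ} {π : ℕ → ℝ} {A K : ℝ} (hK : 0 ≤ K)
    (h1 : ∀ l r : ℕ, (((Finset.range m).filter fun t => l ≤ x t ∧ x t < r).card : ℝ) ≤
      A * (m * mass Ks π l r + 1))
    (h2 : ∀ l r s w : ℕ, s + w ≤ m → miss x l r s w → w * mass Ks π l r ≤ K) :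
    Spread (Measure.dirac ()) (fun t _ => x t) m Ks π A K := by
  classical
  refine ⟨fun l r => ?_, fun l r s w hw => ?_⟩
  · refine le_trans (le_of_eq ?_) (h1 l r)
    rw [Finset.card_filter]
    push_cast
    refine Finset.sum_congr rfl fun t _ => ?_
    by_cases h : l ≤ x t ∧ x t < r
    · have e : {ω : Unit | l ≤ x t ∧ x t < r} = Set.univ := by ext ω; simp [h]
      rw [e, probReal_univ, if_pos h]
    · have e : {ω : Unit | l ≤ x t ∧ x t < r} = ∅ := by ext ω; simp [h]
      rw [e, measureReal_empty, if_neg h]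
  · by_cases h : miss x l r s w
    · have e : {ω : Unit | ∀ t, s ≤ t → t < s + w → ¬ (l ≤ x t ∧ x t < r)} = Set.univ := by
        ext ω
        simp only [Set.mem_univ, iff_true]
        exact h
      rw [e, probReal_univ, one_mul]
      exact h2 l r s w hw h
    · have e : {ω : Unit | ∀ t, s ≤ t → t < s + w → ¬ (l ≤ x t ∧ x t < r)} = ∅ := by
        ext ω
        simp only [Set.mem_empty_iff_false, iff_false]
        exact h
      rw [e, measureReal_empty, zero_mul]
      exact hK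

/-- `α` is badly approximable with constant `c`. -/
def Bad (α c : ℝ) : Prop := 0 < c ∧ ∀ (p : ℤ) (q : ℕ), 0 < q → c ≤ q * |q * α - p|

theorem bad_le {α c : ℝ} (h : Bad α c) : c ≤ 1 / 2 := by
  have h1 := h.2 (round α) 1 one_pos
  have h2 := abs_sub_round α
  simp only [Nat.cast_one, one_mul] at h1
  linarith

theorem bezout {p : ℤ} {d : ℕ} (hd : 0 < d) (h : IsCoprime p (d : ℤ)) (j : ℤ) :
    ∃ (i : ℕ) (k : ℤ), i < d ∧ (i : ℤ) * p = j + k * d := by
  obtain ⟨a, b, hab⟩ := h
  have hd' : (0 : ℤ) < d := by exact_mod_cast hd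
  have h1 := Int.emod_nonneg (a * j) hd'.ne'
  have h2 := Int.emod_lt_of_pos (a * j) hd'
  refine ⟨((a * j) % d).toNat, -(b * j) - (a * j) / d * p, by omega, ?_⟩
  rw [Int.toNat_of_nonneg h1]
  have h3 := Int.emod_add_mul_ediv (a * j) d
  have h4 : (a * j) % d = a * j - d * ((a * j) / d) := by linarith
  rw [h4]
  have h5 : a * p = 1 - b * d := by linarith
  calc (a * j - d * ((a * j) / d)) * p = j * (a * p) - (a * j) / d * p * d := by ring
    _ = j * (1 - b * d) - (a * j) / d * p * d := by rw [h5]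
    _ = j + (-(b * j) - (a * j) / d * p) * d := by ring

/-- Every window of length `4 / (c (v - u))` meets the interval `(u, v)`. -/
theorem hit {α β c u v : ℝ} (hα : Bad α c) (hu : 0 ≤ u) (hv : v ≤ 1) (huv : u < v) {w : ℕ}
    (hw : 4 / c ≤ w * (v - u)) (s : ℕ) :
    ∃ t, s ≤ t ∧ t < s + w ∧ u < Int.fract (α * t + β) ∧ Int.fract (α * t + β) < v := by
  have hc := hα.1
  have hc2 := bad_le hα
  set a : ℝ := v - u with ha
  have ha0 : 0 < a := by linarith
  have ha1 : a ≤ 1 := by linarith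
  have hca : 0 < c * a := by positivity
  have hca1 : c * a ≤ 1 := by nlinarith
  set N : ℕ := ⌈3 / (c * a)⌉₊ with hN
  have hN1 : 3 / (c * a) ≤ N := Nat.le_ceil _
  have hN2 : (N : ℝ) < 3 / (c * a) + 1 := Nat.ceil_lt_add_one (by positivity)
  have hNpos : 0 < N := by
    have : (0 : ℝ) < N := lt_of_lt_of_le (by positivity) hN1
    exact_mod_cast this
  obtain ⟨q, hq1, hq2⟩ := Real.exists_rat_abs_sub_le_and_den_le α hNpos
  set d : ℕ := q.den with hd
  have hdpos : 0 < d := q.den_pos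
  have hd0 : (0 : ℝ) < d := by exact_mod_cast hdpos
  have hdN : (d : ℝ) ≤ N := by exact_mod_cast hq2
  have hN0 : (0 : ℝ) < N := by exact_mod_cast hNpos
  have hqe : (q : ℝ) = q.num / d := by
    rw [hd]; exact (Rat.cast_def q)
  -- the denominator is large
  have h1 : |d * α - q.num| ≤ 1 / (N + 1) := by
    have e : d * α - q.num = d * (α - q) := by
      rw [hqe]; field_simp
    rw [e, abs_mul, abs_of_pos hd0]
    have h2 := mul_le_mul_of_nonneg_left hq1 hd0.le
    have e2 : (d : ℝ) * (1 / ((N + 1) * d)) = 1 / (N + 1) := by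
      field_simp
    rw [e2] at h2
    exact h2
  have h2 : c * (N + 1) ≤ d := by
    have h3 := hα.2 q.num d hdpos
    have h4 := mul_le_mul_of_nonneg_left h1 hd0.le
    have h5 : c ≤ d * (1 / (N + 1)) := le_trans h3 h4
    rw [mul_one_div, le_div_iff₀ (by positivity)] at h5
    exact h5
  have h3 : 3 < a * d := by
    have h4 : 3 ≤ c * a * N := by
      rw [div_le_iff₀ hca] at hN1
      linarith
    have h5 : c * a * N < a * (c * (N + 1)) := by nlinarith
    have h6 := mul_le_mul_of_nonneg_left h2 ha0.le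
    linarith
  have hdw : d ≤ w := by
    have h4 : 4 / (c * a) ≤ w := by
      rw [div_le_iff₀ hca]
      rw [div_le_iff₀ hc] at hw
      linarith
    have h5 : 3 / (c * a) + 1 ≤ 4 / (c * a) := by
      have : 1 ≤ 1 / (c * a) := by
        rw [le_div_iff₀ hca]; linarith
      have e : 4 / (c * a) = 3 / (c * a) + 1 / (c * a) := by ring
      linarith
    have h6 : (d : ℝ) ≤ w := by linarith
    exact_mod_cast h6
  -- the point
  set y : ℝ := α * s + β with hy
  set mid : ℝ := (u + v) / 2 with hmid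
  obtain ⟨i, k, hi, hik⟩ := bezout hdpos (Int.isCoprime_iff_gcd_eq_one.2 q.reduced)
    (round (d * (mid - y)))
  have hr := abs_sub_round (d * (mid - y))
  set j : ℤ := round (d * (mid - y)) with hj
  have hik' : (i : ℝ) * q.num = j + k * d := by exact_mod_cast hik
  have e1 : α * ((s + i : ℕ) : ℝ) + β - k - mid =
      -((d * (mid - y) - j) / d) + i * (α - q) := by
    have e2 : (i : ℝ) * q = j / d + k := by
      rw [hqe]
      rw [← mul_div_assoc, hik']
      field_simp
    have e3 : (d * (mid - y) - j) / d = mid - y - j / d := by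
      field_simp
    rw [e3, mul_sub, e2, hy]
    push_cast
    ring
  have h4 : |(d * (mid - y) - j) / d| ≤ 1 / 2 / d := by
    rw [abs_div, abs_of_pos hd0]
    exact div_le_div_of_nonneg_right hr hd0.le
  have h5 : |(i : ℝ) * (α - q)| ≤ 1 / (N + 1) := by
    rw [abs_mul, abs_of_nonneg (Nat.cast_nonneg i)]
    have hi' : (i : ℝ) ≤ d := by exact_mod_cast hi.le
    calc (i : ℝ) * |α - q| ≤ d * (1 / ((N + 1) * d)) :=
          mul_le_mul hi' hq1 (abs_nonneg _) hd0.le
      _ = 1 / (N + 1) := by field_simp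
  have h6 : (1 : ℝ) / (N + 1) < 1 / d := by
    apply one_div_lt_one_div_of_lt hd0
    linarith
  have h7 : |α * ((s + i : ℕ) : ℝ) + β - k - mid| < a / 2 := by
    rw [e1]
    have h8 := abs_add_le (-((d * (mid - y) - j) / d)) (i * (α - q))
    rw [abs_neg] at h8
    have h9 : 1 / 2 / (d : ℝ) + 1 / d = 3 / 2 / d := by ring
    have h10 : 3 / 2 / (d : ℝ) < a / 2 := by
      rw [div_lt_iff₀ hd0]
      linarith
    linarith
  rw [abs_lt] at h7
  have hf : Int.fract (α * ((s + i : ℕ) : ℝ) + β) = α * ((s + i : ℕ) : ℝ) + β - k := by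
    rw [Int.fract_eq_iff]
    refine ⟨by linarith [h7.1], by linarith [h7.2], k, by ring⟩
  refine ⟨s + i, by omega, by omega, ?_, ?_⟩
  · rw [hf]; linarith [h7.1]
  · rw [hf]; linarith [h7.2]

/-- An interval of length `a` contains at most `m a / c + 1` of the first `m` points. -/
theorem few {α β c a : ℝ} (hα : Bad α c) {J : Set ℝ} (hJ : ∀ y ∈ J, ∀ z ∈ J, |y - z| ≤ a)
    (ha : 0 ≤ a) (m : ℕ) (B : ℕ → Prop) [DecidablePred B]
    (hB : ∀ t, B t → Int.fract (α * t + β) ∈ J) :
    (((Finset.range m).filter B).card : ℝ) ≤ 1 / c * (m * a + 1) := by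
  have hc := hα.1
  have hc2 := bad_le hα
  have hgap : ∀ t t', B t → B t' → t < t' → (t : ℝ) * (a / c) + 1 ≤ t' * (a / c) := by
    intro t t' h1 h2 h3
    have h4 := hJ _ (hB t' h2) _ (hB t h1)
    have h5 := hα.2 (⌊α * t' + β⌋ - ⌊α * t + β⌋) (t' - t) (by omega)
    have e1 : ((t' - t : ℕ) : ℝ) = t' - t := by
      rw [Nat.cast_sub h3.le]
    have e2 : ((t' - t : ℕ) : ℝ) * α - ((⌊α * t' + β⌋ - ⌊α * t + β⌋ : ℤ) : ℝ) =
        Int.fract (α * t' + β) - Int.fract (α * t + β) := by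
      rw [e1, Int.fract, Int.fract]
      push_cast
      ring
    rw [e2] at h5
    have h6 : (0 : ℝ) ≤ ((t' - t : ℕ) : ℝ) := Nat.cast_nonneg _
    have h7 : c ≤ ((t' - t : ℕ) : ℝ) * a := le_trans h5 (mul_le_mul_of_nonneg_left h4 h6)
    rw [e1] at h7
    have h8 : 1 ≤ (t' - t : ℝ) * a / c := by
      rw [le_div_iff₀ hc]; linarith
    have e3 : (t' - t : ℝ) * a / c = t' * (a / c) - t * (a / c) := by ring
    linarith
  have hac : 0 ≤ a / c := div_nonneg ha hc.le
  have hcard : ((Finset.range m).filter B).card ≤ ⌊(m : ℝ) * (a / c)⌋₊ + 1 := by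
    rw [← Finset.card_range (⌊(m : ℝ) * (a / c)⌋₊ + 1)]
    refine Finset.card_le_card_of_injOn (fun t => ⌊(t : ℝ) * (a / c)⌋₊) ?_ ?_
    · intro t ht
      simp only [Finset.coe_filter, Finset.mem_range] at ht
      have ht1 : t < m := ht.1
      simp only [Finset.coe_range, Set.mem_Iio]
      refine Nat.lt_succ_of_le (Nat.floor_le_floor ?_)
      refine mul_le_mul_of_nonneg_right ?_ hac
      exact_mod_cast ht1.le
    · intro t ht t' ht' he
      simp only [Finset.coe_filter, Finset.mem_range] at ht ht'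
      have hb : B t := ht.2
      have hb' : B t' := ht'.2
      simp only at he
      have key : ∀ t t', B t → B t' → t < t' →
          ⌊(t : ℝ) * (a / c)⌋₊ < ⌊(t' : ℝ) * (a / c)⌋₊ := by
        intro t t' h1 h2 h3
        have h4 := hgap t t' h1 h2 h3
        have h5 : (0 : ℝ) ≤ t * (a / c) := mul_nonneg (Nat.cast_nonneg _) hac
        have h6 := Nat.floor_le h5
        have h7 : ⌊(t : ℝ) * (a / c)⌋₊ + 1 ≤ ⌊(t' : ℝ) * (a / c)⌋₊ := by
          refine Nat.le_floor ?_
          push_cast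
          linarith
        omega
      rcases lt_trichotomy t t' with h | h | h
      · have := key t t' hb hb' h; omega
      · exact h
      · have := key t' t hb' hb h; omega
  have h1 : (((Finset.range m).filter B).card : ℝ) ≤ ⌊(m : ℝ) * (a / c)⌋₊ + 1 := by
    exact_mod_cast hcard
  have h2 : (⌊(m : ℝ) * (a / c)⌋₊ : ℝ) ≤ m * (a / c) :=
    Nat.floor_le (mul_nonneg (Nat.cast_nonneg _) hac)
  have h3 : 1 ≤ 1 / c := by
    rw [le_div_iff₀ hc]; linarith
  have e : 1 / c * (m * a + 1) = m * (a / c) + 1 / c := by ring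
  linarith

/-- the part of the unit interval with values in `[l, r)` -/
def JJ (F : ℝ → ℕ) (l r : ℕ) : Set ℝ := {u | (0 ≤ u ∧ u < 1) ∧ (l ≤ F u ∧ F u < r)}

theorem JJ_conn {F : ℝ → ℕ} (hF : MonotoneOn F (Set.Ico 0 1)) (l r : ℕ) :
    (JJ F l r).OrdConnected := by
  rw [Set.ordConnected_def]
  rintro x ⟨⟨x1, x2⟩, x3, x4⟩ y ⟨⟨y1, y2⟩, y3, y4⟩ z ⟨z1, z2⟩
  have hz : 0 ≤ z ∧ z < 1 := ⟨by linarith, by linarith⟩
  have h1 := hF (show x ∈ Set.Ico (0 : ℝ) 1 from ⟨x1, x2⟩) (show z ∈ Set.Ico (0 : ℝ) 1 from hz) z1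
  have h2 := hF (show z ∈ Set.Ico (0 : ℝ) 1 from hz) (show y ∈ Set.Ico (0 : ℝ) 1 from ⟨y1, y2⟩) z2
  exact ⟨hz, by omega, by omega⟩

theorem JJ_fin (F : ℝ → ℕ) (l r : ℕ) : volume (JJ F l r) ≠ ⊤ := by
  refine ne_top_of_le_ne_top (b := volume (Set.Ico (0 : ℝ) 1)) (by simp) (measure_mono ?_)
  rintro u ⟨h, -⟩
  exact h

theorem JJ_mass {F : ℝ → ℕ} (hF : MonotoneOn F (Set.Ico 0 1)) {Ks : List ℕ}
    (hK : ∀ u, 0 ≤ u → u < 1 → F u ∈ Ks) (l r : ℕ) :
    mass Ks (fun x => volume.real (JJ F x (x + 1))) l r = volume.real (JJ F l r) := by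
  have e : JJ F l r = ⋃ x ∈ Ks.toFinset.filter (fun x => l ≤ x ∧ x < r), JJ F x (x + 1) := by
    ext u
    simp only [JJ, Set.mem_ofPred_eq, Finset.mem_filter, List.mem_toFinset, Set.mem_iUnion,
      exists_prop]
    constructor
    · rintro ⟨h1, h2⟩
      exact ⟨F u, ⟨hK u h1.1 h1.2, h2⟩, h1, le_refl _, by omega⟩
    · rintro ⟨x, ⟨-, h2⟩, h1, h3, h4⟩
      exact ⟨h1, by omega, by omega⟩
  rw [e, measureReal_biUnion_finset (h := fun x _ => JJ_fin F x (x + 1))]
  · rfl
  · intro x _ y _ hxy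
    rw [Function.onFun, Set.disjoint_left]
    rintro u ⟨-, h1, h2⟩ ⟨-, h3, h4⟩
    omega
  · intro x _
    exact (JJ_conn hF x (x + 1)).measurableSet

theorem JJ_diam {F : ℝ → ℕ} (hF : MonotoneOn F (Set.Ico 0 1)) (l r : ℕ) :
    ∀ y ∈ JJ F l r, ∀ z ∈ JJ F l r, |y - z| ≤ volume.real (JJ F l r) := by
  have key : ∀ y ∈ JJ F l r, ∀ z ∈ JJ F l r, y ≤ z → z - y ≤ volume.real (JJ F l r) := by
    intro y hy z hz hyz
    have h1 : Set.Icc y z ⊆ JJ F l r := (JJ_conn hF l r).out hy hz
    have h2 : volume.real (Set.Icc y z) ≤ volume.real (JJ F l r) :=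
      measureReal_mono h1 (JJ_fin F l r)
    rw [Real.volume_real_Icc_of_le hyz] at h2
    exact h2
  intro y hy z hz
  rcases le_total y z with h | h
  · rw [abs_sub_comm, abs_of_nonneg (by linarith)]
    exact key y hy z hz h
  · rw [abs_of_nonneg (by linarith)]
    exact key z hz y hy h

theorem JJ_hit {F : ℝ → ℕ} (hF : MonotoneOn F (Set.Ico 0 1)) (l r : ℕ) {α β c : ℝ}
    (hα : Bad α c) {s w : ℕ} (h : 4 / c < w * volume.real (JJ F l r)) :
    ∃ t, s ≤ t ∧ t < s + w ∧ Int.fract (α * t + β) ∈ JJ F l r := by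
  have hc := hα.1
  set J := JJ F l r with hJ
  have hpos : 0 < (w : ℝ) * volume.real J := lt_trans (by positivity) h
  have hvol : 0 < volume.real J := by
    rcases eq_or_lt_of_le (measureReal_nonneg (μ := volume) (s := J)) with h0 | h0
    · rw [← h0, mul_zero] at hpos
      exact absurd hpos (lt_irrefl _)
    · exact h0
  have hne : J.Nonempty := by
    by_contra hcon
    rw [Set.not_nonempty_iff_eq_empty] at hcon
    rw [hcon, measureReal_empty] at hvol
    exact absurd hvol (lt_irrefl _)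
  have hb1 : BddBelow J := ⟨0, fun u hu => hu.1.1⟩
  have hb2 : BddAbove J := ⟨1, fun u hu => hu.1.2.le⟩
  set u := sInf J with hu
  set v := sSup J with hv
  have hu0 : 0 ≤ u := le_csInf hne fun u hu => hu.1.1
  have hv1 : v ≤ 1 := csSup_le hne fun u hu => hu.1.2.le
  have huv : u ≤ v := by
    obtain ⟨z, hz⟩ := hne
    exact le_trans (csInf_le hb1 hz) (le_csSup hb2 hz)
  have hsub : J ⊆ Set.Icc u v := fun z hz => ⟨csInf_le hb1 hz, le_csSup hb2 hz⟩
  have hle : volume.real J ≤ v - u := by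
    have h2 : volume.real J ≤ volume.real (Set.Icc u v) := measureReal_mono hsub (by simp)
    rw [Real.volume_real_Icc_of_le huv] at h2
    exact h2
  have hw0 : (0 : ℝ) ≤ w := Nat.cast_nonneg _
  have h3 : 4 / c ≤ w * (v - u) := le_trans h.le (mul_le_mul_of_nonneg_left hle hw0)
  obtain ⟨t, t1, t2, t3, t4⟩ := hit (β := β) hα hu0 hv1 (by linarith) h3 s
  refine ⟨t, t1, t2, ?_⟩
  obtain ⟨z1, hz1, hz1'⟩ := exists_lt_of_csInf_lt hne t3
  obtain ⟨z2, hz2, hz2'⟩ := exists_lt_of_lt_csSup hne t4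
  exact (JJ_conn hF l r).out hz1 hz2 ⟨hz1'.le, hz2'.le⟩

/-- Monotone functions of a rotation with badly approximable angle. -/
theorem kronecker {T : Tr} (hT : IsBST T) (h1 : 1 ≤ (keys T).length) {α β c : ℝ}
    (hα : Bad α c) {F : ℝ → ℕ} (hF : MonotoneOn F (Set.Ico 0 1))
    (hK : ∀ u, 0 ≤ u → u < 1 → F u ∈ keys T) (m : ℕ) :
    (costSplay T ((List.range m).map fun t : ℕ => F (Int.fract (α * (t : ℝ) + β))) : ℝ) ≤
      3200 / c ^ 2 *
      ((optAny (keys T) ((List.range m).map fun t : ℕ => F (Int.fract (α * (t : ℝ) + β))) : ℝ) +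
        nlog T) := by
  classical
  have hc := hα.1
  have hc2 := bad_le hα
  have hmem : ∀ t : ℕ, F (Int.fract (α * t + β)) ∈ keys T := fun t =>
    hK _ (Int.fract_nonneg _) (Int.fract_lt_one _)
  have hS : Spread (Measure.dirac ()) (fun t (_ : Unit) => F (Int.fract (α * t + β))) m (keys T)
      (fun x => volume.real (JJ F x (x + 1))) (1 / c) (4 / c) := by
    refine spread_det (x := fun t => F (Int.fract (α * t + β))) (by positivity) ?_ ?_
    · intro l r
      rw [JJ_mass hF hK]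
      refine few (β := β) (J := JJ F l r) hα (JJ_diam hF l r) measureReal_nonneg m _ fun t ht => ?_
      exact ⟨⟨Int.fract_nonneg _, Int.fract_lt_one _⟩, ht⟩
    · intro l r s w _ hmiss
      rw [JJ_mass hF hK]
      by_contra hcon
      obtain ⟨t, t1, t2, t3⟩ := JJ_hit (β := β) hF l r hα (s := s) (w := w) (not_le.1 hcon)
      exact hmiss t t1 t2 t3.2
  have htot : ∑ x ∈ (keys T).toFinset, volume.real (JJ F x (x + 1)) ≤ 1 := by
    obtain ⟨R, hR⟩ : ∃ R, ∀ x ∈ keys T, x < R := ⟨(keys T).toFinset.sup id + 1, fun x hx =>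
      Nat.lt_succ_of_le (Finset.le_sup (f := id) (List.mem_toFinset.2 hx))⟩
    have h2 := JJ_mass hF hK 0 R
    unfold mass at h2
    have e : (keys T).toFinset.filter (fun x => 0 ≤ x ∧ x < R) = (keys T).toFinset := by
      refine Finset.filter_true_of_mem fun x hx => ⟨by omega, hR x (List.mem_toFinset.1 hx)⟩
    rw [e] at h2
    rw [h2]
    have h3 : volume.real (JJ F 0 R) ≤ volume.real (Set.Ico (0 : ℝ) 1) :=
      measureReal_mono (fun u hu => hu.1) (by simp)
    simpa using h3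
  have h3 : 1 ≤ 1 / c := by rw [le_div_iff₀ hc]; linarith
  have h4 : 1 ≤ 4 / c := by rw [le_div_iff₀ hc]; linarith
  have h := spread_E hT h1 (P := Measure.dirac ()) (J := 1)
    (X := fun _ t (_ : Unit) => F (Int.fract (α * t + β))) (fun _ t => measurable_const)
    (fun _ t _ => hmem t) (m := fun _ => m) (fun _ x => measureReal_nonneg) (fun _ => htot) h3 h4
    (fun _ => hS)
  simp only [integral_dirac] at h
  have e : 800 * (1 / c * (4 / c)) = 3200 / c ^ 2 := by ring
  have e2 : allReqs (fun (_ : Fin 1) t (_ : Unit) => F (Int.fract (α * t + β))) (fun _ => m) () =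
      (List.range m).map fun t : ℕ => F (Int.fract (α * (t : ℝ) + β)) := by
    simp [allReqs, cat, reqs]
  rw [e, e2, Nat.cast_one, one_mul] at h
  exact h

end Pool.Agent.Q167.DO
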