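import Pool.Agent.Q167.DO.E

set_option autoImplicit false

/-! Requests that hit the intervals according to a flat law; requests with noise. -/

namespace Pool.Agent.Q167.DO

open Pool.Agent.H581R2.Splay Pool.Agent.TH49.Spl Tr MeasureTheory ProbabilityTheory

/-- The balanced tree. -/
theorem balanced : ∀ (d : ℕ) (Ks : List ℕ), Ks.Pairwise (· < ·) → Ks.length < 2 ^ d →
    ∃ O : Tr, keys O = Ks ∧ ∀ x, dep x O ≤ d := by
  intro d
  induction d with
  | zero =>
    intro Ks _ h
    have : Ks = [] := by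
      rw [← List.length_eq_zero_iff]
      simpa using h
    exact ⟨nil, by rw [this]; rfl, fun x => by simp [dep]⟩
  | succ d ih =>
    intro Ks hp h
    by_cases h0 : Ks.length = 0
    · have : Ks = [] := List.length_eq_zero_iff.1 h0
      exact ⟨nil, by rw [this]; rfl, fun x => by simp [dep]⟩
    · have hlt : Ks.length / 2 < Ks.length := by omega
      have e : Ks = Ks.take (Ks.length / 2) ++ Ks[Ks.length / 2] :: Ks.drop (Ks.length / 2 + 1) := by
        conv_lhs => rw [← List.take_append_drop (Ks.length / 2) Ks]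
        rw [List.drop_eq_getElem_cons hlt]
      have e2 : 2 ^ (d + 1) = 2 * 2 ^ d := by ring
      rw [e2] at h
      obtain ⟨O1, a1, a2⟩ := ih (Ks.take (Ks.length / 2)) (hp.sublist (List.take_sublist _ _))
        (by rw [List.length_take]; omega)
      obtain ⟨O2, b1, b2⟩ := ih (Ks.drop (Ks.length / 2 + 1)) (hp.sublist (List.drop_sublist _ _))
        (by rw [List.length_drop]; omega)
      refine ⟨node Ks[Ks.length / 2] O1 O2, ?_, fun x => ?_⟩
      · simp only [keys, a1, b1]
        exact e.symm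
      · have := a2 x
        have := b2 x
        simp only [dep]
        split_ifs <;> omega

theorem dB_le (B : List ℕ) {O : Tr} {d : ℕ} (h : ∀ x, dep x O ≤ d) (l r : ℕ) :
    dB B O l r ≤ B.length * d := by
  unfold dB
  induction B with
  | nil => simp
  | cons x B ih =>
    simp only [List.map_cons, List.sum_cons, List.length_cons]
    have h1 : (if l ≤ x ∧ x < r then dep x O else 0) ≤ d := by
      split_ifs
      · exact h x
      · exact Nat.zero_le _
    have e : (B.length + 1) * d = B.length * d + d := by ring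
    omega

theorem splay_bal {T : Tr} (hT : IsBST T) (h1 : 1 ≤ (keys T).length) {Y : List ℕ}
    (hY : ∀ x ∈ Y, x ∈ keys T) : (costSplay T Y : ℝ) ≤
      14 * Y.length + 6 * (Y.length * Real.logb 2 (keys T).length) +
        4 * ((keys T).length * Real.logb 2 (2 * (keys T).length)) := by
  obtain ⟨R, hR⟩ : ∃ R, ∀ x ∈ keys T, x < R := ⟨(keys T).toFinset.sup id + 1, fun x hx =>
    Nat.lt_succ_of_le (Finset.le_sup (f := id) (List.mem_toFinset.2 hx))⟩
  obtain ⟨O, o1, o2⟩ := balanced (Nat.log 2 (keys T).length + 1) (keys T) hT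
    (Nat.lt_pow_succ_log_self (by norm_num) _)
  have h2 := splay_ub hT h1 hY (O := O) (by unfold IsBST; rw [o1]; exact hT)
    (fun x hx => by rw [o1]; exact hx) hR
  have h3 : (dB Y O 0 R : ℝ) ≤ Y.length * ((Nat.log 2 (keys T).length : ℕ) + 1) := by
    exact_mod_cast dB_le Y o2 0 R
  have h4 : ((Nat.log 2 (keys T).length : ℕ) : ℝ) ≤ Real.logb 2 (keys T).length := by
    have h5 : 2 ^ Nat.log 2 (keys T).length ≤ (keys T).length := Nat.pow_log_le_self 2 (by omega)
    have h6 : ((2 : ℝ) ^ (Nat.log 2 (keys T).length)) ≤ (keys T).length := by exact_mod_cast h5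
    have h7 := logb_mono (by positivity) h6
    rw [Real.logb_pow, Real.logb_self_eq_one (by norm_num), mul_one] at h7
    exact h7
  have h5 : (0 : ℝ) ≤ Y.length := Nat.cast_nonneg _
  have h6 := mul_le_mul_of_nonneg_left h4 h5
  linarith

theorem W_sum (p : ℕ → ℝ) : ∀ (O : Tr) (l r : ℕ), IsBST O → (∀ k ∈ keys O, l ≤ k ∧ k < r) →
    W p O l r = ∑ x ∈ Finset.Ico l r, p x * dep x O := by
  intro O
  induction O with
  | nil => intro l r _ _; simp [W, dep]
  | node z A C ihA ihC =>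
    intro l r hb hk
    obtain ⟨b1, b2, b3, b4⟩ := bstn hb
    have hz := hk z (by simp [keys])
    have i1 := ihA l z b1 fun k hk' => ⟨(hk k (by simp [keys, hk'])).1, b3 k hk'⟩
    have i2 := ihC (z + 1) r b2 fun k hk' => ⟨b4 k hk', (hk k (by simp [keys, hk'])).2⟩
    have e1 : ∑ x ∈ Finset.Ico l r, p x * (dep x (node z A C) : ℝ) =
        ∑ x ∈ Finset.Ico l z, p x * (dep x (node z A C) : ℝ) +
          (p z * (dep z (node z A C) : ℝ) +
            ∑ x ∈ Finset.Ico (z + 1) r, p x * (dep x (node z A C) : ℝ)) := by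
      have g1 := Finset.sum_Ico_consecutive (fun x => p x * (dep x (node z A C) : ℝ)) hz.1 hz.2.le
      have g2 := Finset.sum_eq_sum_Ico_succ_bot hz.2 (fun x => p x * (dep x (node z A C) : ℝ))
      rw [← g1, g2]
    have e2 : ∑ x ∈ Finset.Ico l z, p x * (dep x (node z A C) : ℝ) =
        ∑ x ∈ Finset.Ico l z, p x * (dep x A : ℝ) + ms p l z := by
      unfold ms
      rw [← Finset.sum_add_distrib]
      refine Finset.sum_congr rfl fun x hx => ?_
      rw [Finset.mem_Ico] at hx
      simp only [dep]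
      rw [if_neg (by omega), if_pos hx.2]
      push_cast
      ring
    have e3 : ∑ x ∈ Finset.Ico (z + 1) r, p x * (dep x (node z A C) : ℝ) =
        ∑ x ∈ Finset.Ico (z + 1) r, p x * (dep x C : ℝ) + ms p (z + 1) r := by
      unfold ms
      rw [← Finset.sum_add_distrib]
      refine Finset.sum_congr rfl fun x hx => ?_
      rw [Finset.mem_Ico] at hx
      simp only [dep]
      rw [if_neg (by omega), if_neg (by omega)]
      push_cast
      ring
    have e4 : (dep z (node z A C) : ℝ) = 0 := by simp [dep]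
    simp only [W]
    rw [e1, e2, e3, e4, i1, i2]
    ring

/-- The mean depth is at least half the logarithm of the inverse of the largest weight. -/
theorem W_lb {p : ℕ → ℝ} (hp : ∀ x, 0 ≤ p x) {S : Finset ℕ} (hS : ∀ x, x ∉ S → p x = 0)
    (hp1 : ∑ x ∈ S, p x = 1) {θ : ℝ} (hθ : ∀ x ∈ S, p x ≤ θ) {O : Tr} (hO : IsBST O) {R : ℕ}
    (hO1 : ∀ k ∈ keys O, k ∈ S ∧ 0 ≤ k ∧ k < R) (hO2 : ∀ x ∈ S, 0 ≤ x → x < R → x ∈ keys O)
    (hR : ∀ x ∈ S, x < R) : Real.logb 2 (1 / θ) - 1 ≤ 2 * W p O 0 R := by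
  classical
  have hθ0 : 0 < θ := by
    by_contra hcon
    have : ∑ x ∈ S, p x ≤ 0 := Finset.sum_nonpos fun x hx => le_trans (hθ x hx) (not_lt.1 hcon)
    linarith
  have hSO : (keys O).toFinset = S := by
    ext x
    rw [List.mem_toFinset]
    exact ⟨fun h => (hO1 x h).1, fun h => hO2 x h (Nat.zero_le _) (hR x h)⟩
  have nod : (keys O).Nodup := List.Pairwise.imp (fun {a b} h => by omega) hO
  set w : ℝ := W p O 0 R with hw
  have e1 : w = ∑ x ∈ S, p x * dep x O := by
    rw [hw, W_sum p O 0 R hO fun k hk => (hO1 k hk).2]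
    symm
    refine Finset.sum_subset (fun x hx => Finset.mem_Ico.2 ⟨Nat.zero_le _, hR x hx⟩) ?_
    intro x _ hx
    rw [hS x hx, zero_mul]
  clear_value w
  -- Kraft
  have e2 : ∑ x ∈ S, (1 / 4 : ℝ) ^ (dep x O + 1) ≤ 1 / 2 := by
    have := kraft O hO
    rw [← List.sum_toFinset _ nod, hSO] at this
    exact this
  have e3 : ∑ x ∈ S, p x * (1 / 4 : ℝ) ^ (dep x O + 1) ≤ θ / 2 := by
    calc ∑ x ∈ S, p x * (1 / 4 : ℝ) ^ (dep x O + 1) ≤
          ∑ x ∈ S, θ * (1 / 4 : ℝ) ^ (dep x O + 1) :=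
          Finset.sum_le_sum fun x hx => mul_le_mul_of_nonneg_right (hθ x hx) (by positivity)
      _ = θ * ∑ x ∈ S, (1 / 4 : ℝ) ^ (dep x O + 1) := by rw [Finset.mul_sum]
      _ ≤ θ * (1 / 2) := mul_le_mul_of_nonneg_left e2 hθ0.le
      _ = θ / 2 := by ring
  -- convexity
  have hl4 : 0 < Real.log 4 := Real.log_pos (by norm_num)
  have e4 : Real.exp (-(Real.log 4 * (w + 1))) ≤ ∑ x ∈ S, p x * (1 / 4 : ℝ) ^ (dep x O + 1) := by
    have h1 : ∀ x ∈ S, p x * (Real.exp (-(Real.log 4 * (w + 1))) *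
        (1 - Real.log 4 * ((dep x O : ℝ) - w))) ≤ p x * (1 / 4 : ℝ) ^ (dep x O + 1) := by
      intro x _
      refine mul_le_mul_of_nonneg_left ?_ (hp x)
      have h2 : (1 / 4 : ℝ) ^ (dep x O + 1) = Real.exp (-(Real.log 4 * (w + 1))) *
          Real.exp (-(Real.log 4 * ((dep x O : ℝ) - w))) := by
        rw [← Real.exp_add]
        have h3 : (1 / 4 : ℝ) ^ (dep x O + 1) = Real.exp (Real.log ((1 / 4 : ℝ) ^ (dep x O + 1))) :=
          (Real.exp_log (by positivity)).symm
        rw [h3, Real.log_pow, one_div, Real.log_inv]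
        congr 1
        push_cast
        ring
      rw [h2]
      refine mul_le_mul_of_nonneg_left ?_ (Real.exp_pos _).le
      have := Real.add_one_le_exp (-(Real.log 4 * ((dep x O : ℝ) - w)))
      linarith
    have h2 := Finset.sum_le_sum h1
    refine le_trans (le_of_eq ?_) h2
    have h3 : ∑ x ∈ S, p x * (Real.exp (-(Real.log 4 * (w + 1))) *
        (1 - Real.log 4 * ((dep x O : ℝ) - w))) = Real.exp (-(Real.log 4 * (w + 1))) *
        ((1 + Real.log 4 * w) * ∑ x ∈ S, p x - Real.log 4 * ∑ x ∈ S, p x * dep x O) := by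
      rw [Finset.mul_sum, Finset.mul_sum, ← Finset.sum_sub_distrib, Finset.mul_sum]
      exact Finset.sum_congr rfl fun x _ => by ring
    rw [h3, hp1, ← e1]
    ring
  have e5 : Real.exp (-(Real.log 4 * (w + 1))) ≤ θ / 2 := le_trans e4 e3
  have e6 : -(Real.log 4 * (w + 1)) ≤ Real.log (θ / 2) := by
    rw [← Real.log_exp (-(Real.log 4 * (w + 1)))]
    exact Real.log_le_log (Real.exp_pos _) e5
  have e7 : Real.log 4 = 2 * Real.log 2 := by
    rw [show (4 : ℝ) = 2 ^ 2 by norm_num, Real.log_pow]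
    norm_num
  have hl2 : 0 < Real.log 2 := Real.log_pos (by norm_num)
  have e8 : Real.logb 2 (1 / θ) = -(Real.log θ / Real.log 2) := by
    rw [one_div, Real.logb_inv, Real.logb]
  rw [Real.log_div hθ0.ne' (by norm_num), e7] at e6
  have e9 : -(Real.log θ / Real.log 2) ≤ 2 * w + 1 := by
    rw [← neg_div, div_le_iff₀ hl2]
    nlinarith
  rw [e8]
  linarith

variable {Ω : Type*} [MeasurableSpace Ω]

/-- The data attached to the weights, for one phase, without bounds for the frequencies. -/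
theorem setupH {T : Tr} (h1 : 1 ≤ (keys T).length)
    {P : Measure Ω} [IsProbabilityMeasure P] {X : ℕ → Ω → ℕ} (hX : ∀ t, Measurable (X t))
    (hK : ∀ t ω, X t ω ∈ keys T) {m : ℕ} {π : ℕ → ℝ} (hπ0 : ∀ x, 0 ≤ π x)
    (hπ1 : ∑ x ∈ (keys T).toFinset, π x = 1) {θ : ℝ} (hθ : ∀ x ∈ keys T, π x ≤ θ) {K : ℝ}
    (hS : Hits P X m (keys T) π K) {B : ℝ} (hB : 1 ≤ B) :
    ∃ (V F : Ω → ℝ) (Q : ℝ),
      (∀ ω, ∀ (S : Tr) (c : ℕ), IsBST S → keys S = keys T → Exec S (reqs X m ω) c →
        V ω ≤ 2 * c) ∧ Integrable V P ∧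
      (∀ ω, 0 ≤ F ω) ∧ (∀ ω, F ω ≤ Q) ∧ 0 ≤ Q ∧ Integrable F P ∧
      (∀ ω, Q ≤ V ω + F ω) ∧ ∫ ω, F ω ∂P ≤ 2 * K / B * Q ∧
      m * (Real.logb 2 (1 / θ) - 1) ≤ 16 * B * (Q + 2 * (keys T).length) := by
  classical
  obtain ⟨R, hR⟩ : ∃ R, ∀ x ∈ keys T, x < R := ⟨(keys T).toFinset.sup id + 1, fun x hx =>
    Nat.lt_succ_of_le (Finset.le_sup (f := id) (List.mem_toFinset.2 hx))⟩
  set p : ℕ → ℝ := fun x => if x ∈ keys T then π x else 0 with hp
  have hp0 : ∀ x, 0 ≤ p x := by
    intro x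
    simp only [hp]
    split_ifs
    · exact hπ0 x
    · exact le_refl _
  have hpS : ∀ x, x ∉ (keys T).toFinset → p x = 0 := by
    intro x hx
    simp only [hp]
    rw [if_neg (fun h => hx (List.mem_toFinset.2 h))]
  have hp1 : ∀ l r, ms p l r ≤ 1 := by
    intro l r
    rw [hp, ← mass_eq]
    refine le_trans ?_ hπ1.le
    unfold mass
    exact Finset.sum_le_sum_of_subset_of_nonneg (Finset.filter_subset _ _) fun x _ _ => hπ0 x
  obtain ⟨s, O, a1, a2, a3, a4, a5, a6, a7⟩ := wtree hp0 hpS R 0 R (by omega) (by omega)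
  have hlen : (keys O).length ≤ (keys T).length := by
    have nod : (keys O).Nodup := List.Pairwise.imp (fun {a b} h => by omega) a3
    rw [← List.toFinset_card_of_nodup nod]
    refine le_trans (Finset.card_le_card ?_) (List.toFinset_card_le (keys T))
    intro k hk
    exact (a4 k (List.mem_toFinset.1 hk)).1
  have hlen' : ((keys O).length : ℝ) ≤ (keys T).length := by exact_mod_cast hlen
  have hW := W_lb hp0 hpS (S := (keys T).toFinset) (θ := θ) (by
      rw [← hπ1]
      refine Finset.sum_congr rfl fun x hx => ?_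
      simp only [hp]
      rw [if_pos (List.mem_toFinset.1 hx)]) (by
      intro x hx
      simp only [hp]
      rw [if_pos (List.mem_toFinset.1 hx)]
      exact hθ x (List.mem_toFinset.1 hx)) a3 a4 a5 (fun x hx => hR x (List.mem_toFinset.1 hx))
  refine ⟨fun ω => (val s 0 R (reqs X m ω) : ℝ),
    fun ω => FF X p B m s 0 R ω, QQ p B m s 0 R, ?_,
    reqs_int P hX hK m (fun Y => (val s 0 R Y : ℝ)), fun ω => FF_nonneg X p B m s 0 R ω,
    fun ω => FF_le X p B m s 0 R ω, Nat.cast_nonneg _, FF_int P hX p B m s 0 R,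
    fun ω => val_lb X p B m s 0 R ω a2, ?_, ?_⟩
  · intro ω S c hS hSk hE
    have g2 := exec_val hE hS (by rw [hSk]; exact reqs_mem hK m ω) s 0 R a1
      (clean_inv S s 0 R a2)
    rw [clean_cred s a2] at g2
    have h'' : val s 0 R (reqs X m ω) ≤ 2 * c := by omega
    show (val s 0 R (reqs X m ω) : ℝ) ≤ 2 * c
    exact_mod_cast h''
  · refine FF_E P hX hp0 (by linarith) m ?_ s 0 R
    intro l r s' w hw
    have := hS l r s' w hw
    rw [mass_eq] at this
    exact this
  · have h := QQ_lb hp0 hp1 hB m s 0 R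
    rw [a6] at h
    push_cast at h
    have hm : (0 : ℝ) ≤ m := Nat.cast_nonneg _
    have g1 := mul_le_mul_of_nonneg_left hW hm
    have g2 := mul_le_mul_of_nonneg_left a7 hm
    have g3 : 4 * B * ((QQ p B m s 0 R : ℝ) + 2 * (keys O).length) ≤
        4 * B * ((QQ p B m s 0 R : ℝ) + 2 * (keys T).length) :=
      mul_le_mul_of_nonneg_left (by linarith) (by linarith)
    linarith

theorem setupHJ {T : Tr} (hT : IsBST T) (h1 : 1 ≤ (keys T).length)
    {P : Measure Ω} [IsProbabilityMeasure P] {J : ℕ} {X : Fin J → ℕ → Ω → ℕ}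
    (hX : ∀ j t, Measurable (X j t))
    (hK : ∀ j t ω, X j t ω ∈ keys T) {m : Fin J → ℕ} {π : Fin J → ℕ → ℝ}
    (hπ0 : ∀ j x, 0 ≤ π j x) (hπ1 : ∀ j, ∑ x ∈ (keys T).toFinset, π j x = 1)
    {A δ : ℝ} (hA : 1 ≤ A) (hθ : ∀ j, ∀ x ∈ keys T, π j x ≤ A * ((keys T).length : ℝ) ^ (-δ))
    {K : ℝ} (hS : ∀ j, Hits P (X j) (m j) (keys T) (π j) K) {B : ℝ} (hB : 1 ≤ B) :
    ∃ (V F : Ω → ℝ) (Q N : ℝ), 0 ≤ N ∧
      (∀ ω, N ≤ (optAny (keys T) (allReqs X m ω) : ℝ)) ∧
      (∀ ω, (costSplay T (allReqs X m ω) : ℝ) ≤ 14 * N + 6 * (N * Real.logb 2 (keys T).length) +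
        4 * (J * nlog T)) ∧
      (∀ ω, V ω ≤ 2 * (optAny (keys T) (allReqs X m ω) : ℝ)) ∧ Integrable V P ∧
      (∀ ω, 0 ≤ F ω) ∧ (∀ ω, F ω ≤ Q) ∧ 0 ≤ Q ∧ Integrable F P ∧
      (∀ ω, Q ≤ V ω + F ω) ∧ ∫ ω, F ω ∂P ≤ 2 * K / B * Q ∧
      δ * (N * Real.logb 2 (keys T).length) ≤
        16 * B * (Q + 2 * (J * (keys T).length)) + (1 + Real.logb 2 A) * N := by
  choose V F Q d6 d7 d8 d9 d10 d11 d12 d13 d14 using
    fun j => setupH h1 (P := P) (hX j) (hK j) (hπ0 j) (hπ1 j) (hθ j) (hS j) hB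
  have hmem : ∀ ω j, ∀ x ∈ reqs (X j) (m j) ω, x ∈ keys T := fun ω j => reqs_mem (hK j) (m j) ω
  have hcard : ∀ c : ℝ, ∑ _j : Fin J, c = J * c := by
    intro c
    rw [Finset.sum_const, Finset.card_univ, Fintype.card_fin, nsmul_eq_mul]
  have hn : (0 : ℝ) < (keys T).length := by exact_mod_cast h1
  refine ⟨fun ω => ∑ j, V j ω, fun ω => ∑ j, F j ω, ∑ j, Q j, ∑ j, (m j : ℝ),
    Finset.sum_nonneg fun j _ => Nat.cast_nonneg _, ?_, ?_, ?_,
    integrable_finsetSum _ fun j _ => d7 j,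
    fun ω => Finset.sum_nonneg fun j _ => d8 j ω,
    fun ω => Finset.sum_le_sum fun j _ => d9 j ω, Finset.sum_nonneg fun j _ => d10 j,
    integrable_finsetSum _ fun j _ => d11 j, ?_, ?_, ?_⟩
  · intro ω
    have h3 := opt_len (T := T) (Y := allReqs X m ω)
    have h4 : ((allReqs X m ω).length : ℝ) = ∑ j, (m j : ℝ) := by
      unfold allReqs
      rw [cat_length]
      simp only [reqs_length]
    rw [h4] at h3
    exact h3
  · intro ω
    have h2 := splay_phases hT J (fun j => reqs (X j) (m j) ω)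
      (fun j => 14 * m j + 6 * (m j * Real.logb 2 (keys T).length) + 4 * nlog T) (hmem ω)
      (fun j S hS hSk => by
        have h3 := splay_bal hS (by rw [hSk]; exact h1) (Y := reqs (X j) (m j) ω)
          (by rw [hSk]; exact hmem ω j)
        rw [reqs_length, hSk] at h3
        unfold nlog
        exact h3) T hT rfl
    rw [Finset.sum_add_distrib, Finset.sum_add_distrib, ← Finset.mul_sum, ← Finset.mul_sum,
      ← Finset.sum_mul, hcard] at h2
    unfold allReqs
    linarith
  · intro ω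
    have h2 : (∑ j, V j ω) / 2 ≤ (optAny (keys T) (allReqs X m ω) : ℝ) := by
      refine optAny_ge (T := T) rfl ?_
      intro T' c hT' hE
      have h3 := exec_windows (K := keys T) J (fun j => reqs (X j) (m j) ω)
        (fun j => V j ω / 2) ?_ T' c hT' hE
      · rw [← Finset.sum_div] at h3
        exact h3
      · intro j S c' hSk hE'
        have := d6 j ω S c' (by unfold IsBST; rw [hSk]; exact hT) hSk hE'
        linarith
    linarith
  · intro ω
    rw [← Finset.sum_add_distrib]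
    exact Finset.sum_le_sum fun j _ => d12 j ω
  · rw [integral_finsetSum _ fun j _ => d11 j, Finset.mul_sum]
    exact Finset.sum_le_sum fun j _ => d13 j
  · have h2 := Finset.sum_le_sum (s := Finset.univ) fun j _ => d14 j
    rw [← Finset.sum_mul, ← Finset.mul_sum, Finset.sum_add_distrib, hcard] at h2
    have h3 : Real.logb 2 (1 / (A * ((keys T).length : ℝ) ^ (-δ))) =
        δ * Real.logb 2 (keys T).length - Real.logb 2 A := by
      rw [one_div, Real.logb_inv, Real.logb_mul (by linarith) (by positivity),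
        Real.logb_rpow_eq_mul_logb_of_pos hn]
      ring
    rw [h3] at h2
    linarith

/-- The comparison in expectation. -/
theorem hits_E {T : Tr} (hT : IsBST T) (h1 : 1 ≤ (keys T).length)
    {P : Measure Ω} [IsProbabilityMeasure P] {J : ℕ} {X : Fin J → ℕ → Ω → ℕ}
    (hX : ∀ j t, Measurable (X j t))
    (hK : ∀ j t ω, X j t ω ∈ keys T) {m : Fin J → ℕ} {π : Fin J → ℕ → ℝ}
    (hπ0 : ∀ j x, 0 ≤ π j x) (hπ1 : ∀ j, ∑ x ∈ (keys T).toFinset, π j x = 1)
    {A δ : ℝ} (hA : 1 ≤ A) (hδ : 0 < δ) (hδ1 : δ ≤ 1)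
    (hθ : ∀ j, ∀ x ∈ keys T, π j x ≤ A * ((keys T).length : ℝ) ^ (-δ))
    {K : ℝ} (hK1 : 1 ≤ K) (hS : ∀ j, Hits P (X j) (m j) (keys T) (π j) K) :
    ∫ ω, (costSplay T (allReqs X m ω) : ℝ) ∂P ≤ 1600 * K * (1 + Real.logb 2 A) / δ *
      (∫ ω, (optAny (keys T) (allReqs X m ω) : ℝ) ∂P + J * nlog T) := by
  obtain ⟨V, F, Q, N, n0, n1, d5, d6, d7, d8, d9, d10, d11, d12, d13, d14⟩ :=
    setupHJ hT h1 hX hK hπ0 hπ1 hA hθ hS (B := 4 * K) (by linarith)
  have hc := allReqs_int P hX hK m fun Y => (costSplay T Y : ℝ)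
  have ho := allReqs_int P hX hK m fun Y => (optAny (keys T) Y : ℝ)
  set EO : ℝ := ∫ ω, (optAny (keys T) (allReqs X m ω) : ℝ) ∂P with hEO
  have hlA : 0 ≤ Real.logb 2 A := Real.logb_nonneg (by norm_num) hA
  set lam : ℝ := 1 + Real.logb 2 A with hlam
  have hlam1 : 1 ≤ lam := by linarith
  have hL0 : ((J : ℝ) * (keys T).length) ≤ J * nlog T :=
    mul_le_mul_of_nonneg_left (nlog_ge h1) (Nat.cast_nonneg _)
  have hJn : (0 : ℝ) ≤ (J : ℝ) * (keys T).length := by positivity
  have e0 : N ≤ EO := by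
    have h2 := integral_mono (integrable_const N) ho (fun ω => n1 ω)
    rw [integral_const] at h2
    simpa using h2
  have e1 : ∫ ω, (costSplay T (allReqs X m ω) : ℝ) ∂P ≤
      14 * N + 6 * (N * Real.logb 2 (keys T).length) + 4 * (J * nlog T) := by
    have h2 := integral_mono hc (integrable_const (14 * N + 6 * (N * Real.logb 2 (keys T).length) +
      4 * (J * nlog T))) (fun ω => d5 ω)
    rw [integral_const] at h2
    simpa using h2
  have e2 : Q ≤ 2 * EO + 2 * K / (4 * K) * Q := by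
    have h2 := integral_mono (integrable_const Q) (d7.add d11) (fun ω => d12 ω)
    have h3 := integral_add d7 d11
    simp only [Pi.add_apply] at h2 h3
    rw [h3, integral_const] at h2
    simp only [probReal_univ, one_smul] at h2
    have h4 := integral_mono d7 (ho.const_mul 2) (fun ω => d6 ω)
    rw [integral_const_mul] at h4
    linarith
  have e3 : 2 * K / (4 * K) = 1 / 2 := by field_simp; norm_num
  rw [e3] at e2
  have e4 : Q ≤ 4 * EO := by linarith
  set L : ℝ := J * nlog T with hL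
  have hL1 : 0 ≤ L := le_trans hJn hL0
  have hEO0 : 0 ≤ EO := le_trans n0 e0
  have hKl : 1 ≤ K * lam := by nlinarith
  have e5 : δ * (N * Real.logb 2 (keys T).length) ≤ 257 * (K * lam) * (EO + L) := by
    have h2 : 16 * (4 * K) * (Q + 2 * (J * (keys T).length)) ≤ 256 * K * (EO + L) := by
      have h3 : Q + 2 * ((J : ℝ) * (keys T).length) ≤ 4 * (EO + L) := by linarith
      calc 16 * (4 * K) * (Q + 2 * (J * (keys T).length)) ≤ 16 * (4 * K) * (4 * (EO + L)) :=
            mul_le_mul_of_nonneg_left h3 (by linarith)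
        _ = 256 * K * (EO + L) := by ring
    have h4 : lam * N ≤ K * lam * (EO + L) := by
      have h5 : N ≤ EO + L := by linarith
      have h6 : lam * N ≤ lam * (EO + L) := mul_le_mul_of_nonneg_left h5 (by linarith)
      have h7 : 0 ≤ lam * (EO + L) := by positivity
      nlinarith
    have h8 : K * (EO + L) ≤ K * lam * (EO + L) := by
      have h7 : 0 ≤ K * (EO + L) := mul_nonneg (by linarith) (by linarith)
      nlinarith
    linarith
  set G : ℝ := K * lam / δ with hG
  have hG1 : 1 ≤ G := by rw [hG, le_div_iff₀ hδ]; linarith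
  have e6 : N * Real.logb 2 (keys T).length ≤ 257 * G * (EO + L) := by
    have h2 : N * Real.logb 2 (keys T).length ≤ 257 * (K * lam) * (EO + L) / δ := by
      rw [le_div_iff₀ hδ]; linarith
    have e : 257 * (K * lam) * (EO + L) / δ = 257 * G * (EO + L) := by rw [hG]; ring
    linarith
  have e7 : 1600 * K * lam / δ = 1600 * G := by rw [hG]; ring
  rw [e7]
  have g1 : EO ≤ G * EO := by nlinarith
  have g2 : L ≤ G * L := by nlinarith
  have g3 : 0 ≤ G * EO := by positivity
  have g4 : 0 ≤ G * L := by positivity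
  nlinarith

/-- The comparison in probability. -/
theorem hits_P {T : Tr} (hT : IsBST T) (h1 : 1 ≤ (keys T).length)
    {P : Measure Ω} [IsProbabilityMeasure P] {J : ℕ} {X : Fin J → ℕ → Ω → ℕ}
    (hX : ∀ j t, Measurable (X j t))
    (hK : ∀ j t ω, X j t ω ∈ keys T) {m : Fin J → ℕ} {π : Fin J → ℕ → ℝ}
    (hπ0 : ∀ j x, 0 ≤ π j x) (hπ1 : ∀ j, ∑ x ∈ (keys T).toFinset, π j x = 1)
    {A δ : ℝ} (hA : 1 ≤ A) (hδ : 0 < δ) (hδ1 : δ ≤ 1)
    (hθ : ∀ j, ∀ x ∈ keys T, π j x ≤ A * ((keys T).length : ℝ) ^ (-δ))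
    {K : ℝ} (hK1 : 1 ≤ K) (hS : ∀ j, Hits P (X j) (m j) (keys T) (π j) K) {ε : ℝ} (hε : 0 < ε) :
    P.real {ω | 3100 * K * (1 + Real.logb 2 A) / (δ * ε) *
      ((optAny (keys T) (allReqs X m ω) : ℝ) + J * nlog T) <
        (costSplay T (allReqs X m ω) : ℝ)} ≤ ε := by
  rcases le_or_gt ε 1 with hε1 | hε1
  swap
  · exact le_trans measureReal_le_one hε1.le
  have hB : 1 ≤ 8 * K / ε := by
    rw [le_div_iff₀ hε]; linarith
  obtain ⟨V, F, Q, N, n0, n1, d5, d6, d7, d8, d9, d10, d11, d12, d13, d14⟩ :=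
    setupHJ hT h1 hX hK hπ0 hπ1 hA hθ hS hB
  have hlA : 0 ≤ Real.logb 2 A := Real.logb_nonneg (by norm_num) hA
  set lam : ℝ := 1 + Real.logb 2 A with hlam
  have hlam1 : 1 ≤ lam := by linarith
  have hL0 : ((J : ℝ) * (keys T).length) ≤ J * nlog T :=
    mul_le_mul_of_nonneg_left (nlog_ge h1) (Nat.cast_nonneg _)
  have hJn : (0 : ℝ) ≤ (J : ℝ) * (keys T).length := by positivity
  set L : ℝ := J * nlog T with hL
  have hL1 : 0 ≤ L := le_trans hJn hL0
  have p1 : P.real {ω | Q < 2 * F ω} ≤ ε / 2 := by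
    rcases eq_or_lt_of_le d10 with h0 | h0
    · have : {ω | Q < 2 * F ω} = ∅ := by
        ext ω
        have := d9 ω
        simp only [Set.mem_ofPred_eq, Set.mem_empty_iff_false, iff_false, not_lt]
        linarith
      rw [this, measureReal_empty]
      linarith
    · have h2 := mul_meas_ge_le_integral_of_nonneg (μ := P) (f := F)
        (Filter.Eventually.of_forall d8) d11 (Q / 2)
      have h3 : P.real {ω | Q < 2 * F ω} ≤ P.real {ω | Q / 2 ≤ F ω} := by
        refine measureReal_mono ?_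
        intro ω hω
        simp only [Set.mem_ofPred_eq] at hω ⊢
        linarith
      have h4 : 2 * K / (8 * K / ε) = ε / 4 := by
        have : K ≠ 0 := by linarith
        have : ε ≠ 0 := hε.ne'
        field_simp
        norm_num
      rw [h4] at d13
      have h5 : Q / 2 * P.real {ω | Q / 2 ≤ F ω} ≤ Q / 2 * (ε / 2) := by linarith
      have h6 := le_of_mul_le_mul_left h5 (by linarith)
      linarith
  have hsub : {ω | 3100 * K * lam / (δ * ε) *
      ((optAny (keys T) (allReqs X m ω) : ℝ) + L) < (costSplay T (allReqs X m ω) : ℝ)} ⊆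
      {ω | Q < 2 * F ω} := by
    intro ω hω
    by_contra hcon
    simp only [Set.mem_ofPred_eq, not_lt] at hcon hω
    set o : ℝ := (optAny (keys T) (allReqs X m ω) : ℝ) with ho
    have ho0 : 0 ≤ o := Nat.cast_nonneg _
    have c3 : Q ≤ 4 * o := by
      have := d12 ω
      have := d6 ω
      linarith
    have hNo : N ≤ o := n1 ω
    set u : ℝ := 1 / ε with hu
    have hu1 : 1 ≤ u := by rw [hu, le_div_iff₀ hε]; linarith
    have hKu : 1 ≤ K * u := by nlinarith
    have hKl : 1 ≤ K * u * lam := by nlinarith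
    have e5 : δ * (N * Real.logb 2 (keys T).length) ≤ 513 * (K * u * lam) * (o + L) := by
      have h2 : 16 * (8 * K / ε) * (Q + 2 * (J * (keys T).length)) ≤ 512 * (K * u) * (o + L) := by
        have h3 : Q + 2 * ((J : ℝ) * (keys T).length) ≤ 4 * (o + L) := by linarith
        calc 16 * (8 * K / ε) * (Q + 2 * (J * (keys T).length)) ≤
              16 * (8 * K / ε) * (4 * (o + L)) :=
              mul_le_mul_of_nonneg_left h3 (by positivity)
          _ = 512 * (K * u) * (o + L) := by rw [hu]; ring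
      have h4 : lam * N ≤ K * u * lam * (o + L) := by
        have h5 : N ≤ o + L := by linarith
        have h6 : lam * N ≤ lam * (o + L) := mul_le_mul_of_nonneg_left h5 (by linarith)
        have h7 : 0 ≤ lam * (o + L) := by positivity
        nlinarith
      have h8 : K * u * (o + L) ≤ K * u * lam * (o + L) := by
        have h7 : 0 ≤ K * u * (o + L) := mul_nonneg (by linarith) (by linarith)
        nlinarith
      linarith
    set G : ℝ := K * u * lam / δ with hG
    have hG1 : 1 ≤ G := by rw [hG, le_div_iff₀ hδ]; linarith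
    have e6 : N * Real.logb 2 (keys T).length ≤ 513 * G * (o + L) := by
      have h2 : N * Real.logb 2 (keys T).length ≤ 513 * (K * u * lam) * (o + L) / δ := by
        rw [le_div_iff₀ hδ]; linarith
      have e : 513 * (K * u * lam) * (o + L) / δ = 513 * G * (o + L) := by rw [hG]; ring
      linarith
    have e7 : 3100 * K * lam / (δ * ε) = 3100 * G := by
      rw [hG, hu]
      field_simp
    rw [e7] at hω
    have c7 := d5 ω
    have g1 : o ≤ G * o := by nlinarith
    have g2 : L ≤ G * L := by nlinarith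
    have g3 : 0 ≤ G * o := by positivity
    have g4 : 0 ≤ G * L := by positivity
    nlinarith
  calc _ ≤ P.real {ω | Q < 2 * F ω} := measureReal_mono hsub
    _ ≤ ε := by linarith

end Pool.Agent.Q167.DO
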