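import Pool.Agent.Q167.DO.G

set_option autoImplicit false

/-! Requests with pairwise independent noise. -/

namespace Pool.Agent.Q167.DO

open Pool.Agent.H581R2.Splay Pool.Agent.TH49.Spl Tr MeasureTheory ProbabilityTheory

variable {Ω : Type*} [MeasurableSpace Ω]

/-- With probability `q` a request is noise of law `π`; the noise at different times is pairwise
independent. -/
theorem noise_hits (P : Measure Ω) [IsProbabilityMeasure P] {X : ℕ → Ω → ℕ}
    {Ks : List ℕ} (hK : ∀ t ω, X t ω ∈ Ks) {b : ℕ → Ω → Bool} {N : ℕ → Ω → ℕ}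
    (hb : ∀ t, Measurable (b t)) (hN : ∀ t, Measurable (N t)) {m : ℕ}
    (hXN : ∀ t, t < m → ∀ ω, b t ω = true → X t ω = N t ω) {π : ℕ → ℝ} {q : ℝ} (hq : 0 < q)
    (hlaw : ∀ t, t < m → ∀ x ∈ Ks, P.real {ω | b t ω = true ∧ N t ω = x} = q * π x)
    (hind : ∀ s t, s < t → t < m →
      IndepFun (fun ω => (b s ω, N s ω)) (fun ω => (b t ω, N t ω)) P) :
    Hits P X m Ks π (1 / q) := by
  intro l r s w hw
  set E : ℕ → Set Ω := fun t => {ω | b t ω = true ∧ (l ≤ N t ω ∧ N t ω < r)} with hE
  set B : Set (Bool × ℕ) := {z | z.1 = true ∧ (l ≤ z.2 ∧ z.2 < r)} with hB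
  have hpre : ∀ t, E t = (fun ω => (b t ω, N t ω)) ⁻¹' B := fun t => rfl
  have hmE : ∀ t, MeasurableSet (E t) := by
    intro t
    rw [hpre]
    exact ((hb t).prodMk (hN t)) MeasurableSet.of_discrete
  have hlawE : ∀ t, t < m → P.real (E t) = q * mass Ks π l r := by
    intro t ht
    have e : E t = ⋃ x ∈ Ks.toFinset.filter (fun x => l ≤ x ∧ x < r),
        {ω | b t ω = true ∧ N t ω = x} := by
      ext ω
      simp only [hE, Set.mem_ofPred_eq, Finset.mem_filter, List.mem_toFinset, Set.mem_iUnion,
        exists_prop]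
      constructor
      · rintro ⟨h1, h2⟩
        refine ⟨N t ω, ⟨?_, h2⟩, h1, rfl⟩
        rw [← hXN t ht ω h1]
        exact hK t ω
      · rintro ⟨x, ⟨-, h⟩, h1, h2⟩
        rw [h2]; exact ⟨h1, h⟩
    rw [e, measureReal_biUnion_finset]
    · unfold mass
      rw [Finset.mul_sum]
      refine Finset.sum_congr rfl fun x hx => hlaw t ht x ?_
      exact List.mem_toFinset.1 (Finset.mem_filter.1 hx).1
    · intro x _ y _ hxy
      rw [Function.onFun, Set.disjoint_left]
      intro ω h1 h2
      simp only [Set.mem_ofPred_eq] at h1 h2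
      exact hxy (h1.2.symm.trans h2.2)
    · intro x _
      have : {ω | b t ω = true ∧ N t ω = x} = (fun ω => (b t ω, N t ω)) ⁻¹' {(true, x)} := by
        ext ω
        simp
      rw [this]
      exact ((hb t).prodMk (hN t)) MeasurableSet.of_discrete
  set a : ℝ := q * mass Ks π l r with ha
  rcases Nat.eq_zero_or_pos w with hw0 | hw0
  · subst hw0
    simp only [Nat.cast_zero, zero_mul, mul_zero]
    positivity
  have ha0 : 0 ≤ a := by
    rw [← hlawE s (by omega)]
    exact measureReal_nonneg
  have hpair : ∀ t u, t < m → u < m → P.real (E t ∩ E u) ≤ a ^ 2 + if t = u then a else 0 := by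
    have key : ∀ t u, t < u → u < m → P.real (E t ∩ E u) = a ^ 2 := by
      intro t u htu hu
      have h3 := (hind t u htu hu).measure_inter_preimage_eq_mul B B
        MeasurableSet.of_discrete MeasurableSet.of_discrete
      have h4 : P.real (E t ∩ E u) = P.real (E t) * P.real (E u) := by
        rw [measureReal_def, measureReal_def, measureReal_def, ← ENNReal.toReal_mul]
        exact congrArg ENNReal.toReal h3
      rw [h4, hlawE t (by omega), hlawE u hu]
      ring
    intro t u ht hu
    rcases lt_trichotomy t u with h | h | h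
    · rw [if_neg (by omega), key t u h hu]
      linarith
    · subst h
      rw [if_pos rfl, Set.inter_self, hlawE t ht]
      nlinarith [sq_nonneg a]
    · rw [if_neg (by omega), Set.inter_comm, key u t h ht]
      linarith
  have h2 := second P hmE (s := s) (w := w) (a := a) (K := 1) (by norm_num)
    (fun t _ h => hlawE t (by omega)) (by
      have hterm : ∀ t ∈ Finset.Ico s (s + w), ∑ u ∈ Finset.Ico s (s + w),
          P.real (E t ∩ E u) ≤ w * a ^ 2 + a := by
        intro t ht
        have h3 : ∀ u ∈ Finset.Ico s (s + w), P.real (E t ∩ E u) ≤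
            a ^ 2 + if t = u then a else 0 := by
          intro u hu
          rw [Finset.mem_Ico] at ht hu
          exact hpair t u (by omega) (by omega)
        refine le_trans (Finset.sum_le_sum h3) ?_
        rw [Finset.sum_add_distrib, Finset.sum_const, Nat.card_Ico, nsmul_eq_mul,
          Finset.sum_ite_eq, if_pos ht]
        have e : ((s + w - s : ℕ) : ℝ) = w := by congr 1; omega
        rw [e]
      refine le_trans (Finset.sum_le_sum hterm) ?_
      rw [Finset.sum_const, Nat.card_Ico, nsmul_eq_mul]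
      have e : ((s + w - s : ℕ) : ℝ) = w := by congr 1; omega
      rw [e]
      exact le_of_eq (by ring))
  have hsub : P.real {ω | ∀ t, s ≤ t → t < s + w → ¬ (l ≤ X t ω ∧ X t ω < r)} ≤
      P.real {ω | ∀ t, s ≤ t → t < s + w → ω ∉ E t} := by
    refine measureReal_mono ?_
    intro ω hω t ht1 ht2 hEt
    refine hω t ht1 ht2 ?_
    rw [hXN t (by omega) ω hEt.1]
    exact hEt.2
  have h0 : (0 : ℝ) ≤ w * a := by positivity
  have h3 := le_trans (mul_le_mul_of_nonneg_right hsub h0) h2
  rw [le_div_iff₀ hq]
  calc P.real {ω | ∀ t, s ≤ t → t < s + w → ¬ (l ≤ X t ω ∧ X t ω < r)} *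
        (w * mass Ks π l r) * q =
        P.real {ω | ∀ t, s ≤ t → t < s + w → ¬ (l ≤ X t ω ∧ X t ω < r)} * (w * a) := by
        rw [ha]; ring
    _ ≤ 1 := h3

end Pool.Agent.Q167.DO
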